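import Pool.Agent.Run7.h235.BergCoef

/-!
# The weighted Bergman space inside `L²`: monomials, kernels, evaluation functionals
-/

set_option autoImplicit false

open MeasureTheory Set Filter Topology ComplexConjugate
open scoped ENNReal

namespace Pool.Agent.Run7.h235.Berg

noncomputable section

/-- The unit disc. -/
abbrev DD : Set ℂ := Metric.ball (0 : ℂ) 1

/-- The weight. -/
def wt (α : ℝ) (z : ℂ) : ℝ := (1 + α) * (1 - ‖z‖ ^ 2) ^ α / Real.pi

/-- The weighted area measure. -/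
def bm (α : ℝ) : Measure ℂ := (volume.restrict DD).withDensity
    (fun z : ℂ => ENNReal.ofReal (wt α z))

variable {α : ℝ}

lemma continuous_wt (hα : 0 ≤ α) : Continuous (wt α) := by
  unfold wt
  have : Continuous (fun z : ℂ => (1 - ‖z‖ ^ 2) ^ α) :=
    Continuous.rpow_const (by fun_prop) (fun _ => Or.inr hα)
  fun_prop

lemma wt_nonneg (hα : 0 ≤ α) {z : ℂ} (hz : z ∈ DD) : 0 ≤ wt α z := by
  have hz' : ‖z‖ < 1 := by simpa using hz
  have : 0 ≤ 1 - ‖z‖ ^ 2 := by nlinarith [norm_nonneg z]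
  unfold wt
  have := Real.pi_pos
  positivity

lemma ae_mem : ∀ᵐ z ∂(bm α), z ∈ DD := by
  have h : bm α ≪ volume.restrict DD := withDensity_absolutelyContinuous _ _
  exact h.ae_le (ae_restrict_mem measurableSet_ball)

lemma integrable_wt (hα : 0 ≤ α) : Integrable (wt α) (volume.restrict DD) := by
  have : IntegrableOn (wt α) (Metric.closedBall (0 : ℂ) 1) :=
    (continuous_wt hα).continuousOn.integrableOn_compact (isCompact_closedBall _ _)
  exact this.mono_set Metric.ball_subset_closedBall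

lemma isFinite_bm (hα : 0 ≤ α) : IsFiniteMeasure (bm α) :=
  isFiniteMeasure_withDensity_ofReal (integrable_wt hα).2

lemma integral_bm (hα : 0 ≤ α) (f : ℂ → ℂ) :
    ∫ z, f z ∂(bm α) = ∫ z in DD, (wt α z : ℂ) * f z := by
  unfold bm
  rw [integral_withDensity_eq_integral_toReal_smul
    (continuous_wt hα).measurable.ennreal_ofReal
    (ae_of_all _ fun _ => ENNReal.ofReal_lt_top)]
  apply setIntegral_congr_fun measurableSet_ball
  intro z hz
  simp only
  rw [ENNReal.toReal_ofReal (wt_nonneg hα hz), Complex.real_smul]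

/-- orthogonality of monomials -/
lemma integral_mono_ne (hα : 0 ≤ α) {m n : ℕ} (h : m ≠ n) :
    ∫ z, z ^ m * conj z ^ n ∂(bm α) = 0 := by
  rw [integral_bm hα]
  have hmn : ((m : ℂ) - n) ≠ 0 := by
    rw [sub_ne_zero]; exact_mod_cast h
  set a : ℝ := Real.pi / ((m : ℝ) - n) with ha
  set c : Circle := Circle.exp a with hc
  have hmp : MeasurePreserving (rotation c) (volume : Measure ℂ) volume :=
    (rotation c).measurePreserving
  have hpre : (rotation c) ⁻¹' DD = DD := by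
    ext z; simp only [Set.mem_preimage, mem_ball_zero_iff, LinearIsometryEquiv.norm_map]
  have h1 := hmp.setIntegral_preimage_emb (rotation c).toHomeomorph.measurableEmbedding
    (fun z : ℂ => (wt α z : ℂ) * (z ^ m * conj z ^ n)) DD
  rw [hpre] at h1
  have h2 : ∀ z : ℂ, (wt α (rotation c z) : ℂ) * ((rotation c z) ^ m * conj (rotation c z) ^ n) =
      (-1) * ((wt α z : ℂ) * (z ^ m * conj z ^ n)) := by
    intro z
    have hcc : (c : ℂ) ^ m * (conj (c : ℂ)) ^ n = -1 := by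
      rw [hc, Circle.coe_exp, ← Complex.exp_conj, ← Complex.exp_nat_mul, ← Complex.exp_nat_mul,
        ← Complex.exp_add, ← Complex.exp_pi_mul_I]
      congr 1
      simp only [map_mul, Complex.conj_ofReal, Complex.conj_I, ha]
      push_cast
      field_simp
      ring
    have hw : wt α (rotation c z) = wt α z := by
      unfold wt
      rw [LinearIsometryEquiv.norm_map]
    rw [hw, rotation_apply, map_mul, mul_pow, mul_pow]
    calc (wt α z : ℂ) * ((c : ℂ) ^ m * z ^ m * ((conj (c : ℂ)) ^ n * (conj z) ^ n))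
        = ((c : ℂ) ^ m * (conj (c : ℂ)) ^ n) * ((wt α z : ℂ) * (z ^ m * conj z ^ n)) := by ring
      _ = _ := by rw [hcc]
  simp only [h2] at h1
  rw [integral_const_mul] at h1
  linear_combination (-1/2 : ℂ) * h1

/-- The moments. -/
def gam (α : ℝ) (n : ℕ) : ℝ := 2 * (1 + α) * JJ α n

lemma gam_pos (hα : 0 ≤ α) (n : ℕ) : 0 < gam α n := by
  have := JJ_pos hα n
  unfold gam
  positivity

lemma integral_mono_eq (hα : 0 ≤ α) (n : ℕ) :
    ∫ z, z ^ n * conj z ^ n ∂(bm α) = (gam α n : ℂ) := by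
  rw [integral_bm hα]
  have h0 : ∀ z : ℂ, (wt α z : ℂ) * (z ^ n * conj z ^ n) = ((wt α z * ‖z‖ ^ (2 * n) : ℝ) : ℂ) := by
    intro z
    rw [← mul_pow, Complex.mul_conj, Complex.normSq_eq_norm_sq, pow_mul]
    push_cast; ring
  simp only [h0]
  rw [integral_complex_ofReal]
  congr 1
  rw [← integral_indicator measurableSet_ball]
  have h1 : ∀ z : ℂ, DD.indicator (fun z : ℂ => wt α z * ‖z‖ ^ (2 * n)) z
      = (fun y : ℝ => (Set.Iio (1 : ℝ)).indicator
        (fun y : ℝ => (1 + α) * (1 - y ^ 2) ^ α / Real.pi * y ^ (2 * n)) y) ‖z‖ := by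
    intro z
    by_cases hz : ‖z‖ < 1
    · simp [Set.indicator, hz, wt]
    · simp [Set.indicator, hz]
  simp only [h1]
  have := integral_fun_norm_addHaar (volume : Measure ℂ)
    (fun y : ℝ => (Set.Iio (1 : ℝ)).indicator
        (fun y : ℝ => (1 + α) * (1 - y ^ 2) ^ α / Real.pi * y ^ (2 * n)) y)
  rw [this]
  have hdim : Module.finrank ℝ ℂ = 2 := Complex.finrank_real_complex
  have hvol : (volume : Measure ℂ).real (Metric.ball 0 1) = Real.pi := by
    rw [Measure.real, Complex.volume_ball]; simp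
  rw [hdim, hvol]
  have h2 : ∫ y in Set.Ioi (0 : ℝ), y ^ (2 - 1) • (Set.Iio (1 : ℝ)).indicator
        (fun y : ℝ => (1 + α) * (1 - y ^ 2) ^ α / Real.pi * y ^ (2 * n)) y
      = (1 + α) / Real.pi * JJ α n := by
    have h3 : ∀ y : ℝ, y ^ (2 - 1) • (Set.Iio (1 : ℝ)).indicator
        (fun y : ℝ => (1 + α) * (1 - y ^ 2) ^ α / Real.pi * y ^ (2 * n)) y
        = (Set.Iio (1 : ℝ)).indicator (fun y : ℝ => (1 + α) / Real.pi *
          (y ^ (2 * n + 1) * (1 - y ^ 2) ^ α)) y := by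
      intro y
      by_cases hy : y < 1
      · simp [Set.indicator, hy]; ring
      · simp [Set.indicator, hy]
    simp only [h3]
    rw [integral_indicator measurableSet_Iio, Measure.restrict_restrict measurableSet_Iio,
      Set.Iio_inter_Ioi, ← integral_Ioc_eq_integral_Ioo,
      ← intervalIntegral.integral_of_le zero_le_one, intervalIntegral.integral_const_mul]
    rfl
  rw [h2]
  simp only [smul_eq_mul, nsmul_eq_mul]
  unfold gam
  have := Real.pi_pos
  field_simp
  push_cast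
  ring

/-! ### The Hilbert space -/

/-- The ambient Hilbert space. -/
abbrev HB (α : ℝ) : Type := Lp ℂ 2 (bm α)

lemma memLp_mono (hα : 0 ≤ α) (p : ℝ≥0∞) (n : ℕ) : MemLp (fun z : ℂ => z ^ n) p (bm α) := by
  have := isFinite_bm hα
  refine MemLp.of_bound (by fun_prop) 1 ?_
  filter_upwards [ae_mem] with z hz
  have hz' : ‖z‖ < 1 := by simpa using hz
  rw [norm_pow]
  exact pow_le_one₀ (norm_nonneg z) hz'.le

/-- The monomials. -/
def ee (hα : 0 ≤ α) (n : ℕ) : HB α := (memLp_mono hα 2 n).toLp _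

lemma coeFn_ee (hα : 0 ≤ α) (n : ℕ) : (ee hα n : ℂ → ℂ) =ᵐ[bm α] fun z => z ^ n :=
  MemLp.coeFn_toLp _

lemma inner_ee (hα : 0 ≤ α) (m n : ℕ) :
    (inner ℂ (ee hα m) (ee hα n) : ℂ) = if m = n then (gam α n : ℂ) else 0 := by
  rw [L2.inner_def]
  have : ∫ z, (inner ℂ ((ee hα m : ℂ → ℂ) z) ((ee hα n : ℂ → ℂ) z) : ℂ) ∂(bm α) =
      ∫ z, z ^ n * conj z ^ m ∂(bm α) := by
    apply integral_congr_ae
    filter_upwards [coeFn_ee hα m, coeFn_ee hα n] with z h1 h2
    rw [h1, h2, RCLike.inner_apply, map_pow]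
  rw [this]
  split_ifs with h
  · rw [h]; exact integral_mono_eq hα n
  · exact integral_mono_ne hα (Ne.symm h)

lemma norm_ee_le (hα : 0 ≤ α) (n : ℕ) : ‖ee hα n‖ ≤ ‖ee hα 0‖ := by
  apply Lp.norm_le_norm_of_ae_le
  filter_upwards [coeFn_ee hα n, coeFn_ee hα 0, ae_mem] with z h1 h2 hz
  have hz' : ‖z‖ < 1 := by simpa using hz
  rw [h1, h2, norm_pow, pow_zero, norm_one]
  exact pow_le_one₀ (norm_nonneg z) hz'.le

lemma gam_ratio (hα : 0 ≤ α) (n : ℕ) : gam α 0 / gam α n = JJ α 0 / JJ α n := by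
  have h1 := JJ_pos hα n
  unfold gam
  have : 0 < 1 + α := by linarith
  field_simp

lemma summable_gam (hα : 0 ≤ α) {r : ℝ} (h0 : 0 ≤ r) (h1 : r < 1) :
    Summable (fun n : ℕ => r ^ n / gam α n) := by
  have hx : ‖((r : ℝ) : ℂ)‖ < 1 := by simpa [abs_of_nonneg h0] using h1
  have h := (hasSum_ratio hα hx).summable
  have h2 := h.norm
  have h3 : (fun n : ℕ => ‖((JJ α 0 / JJ α n : ℝ) : ℂ) * ((r : ℝ) : ℂ) ^ n‖) =
      fun n : ℕ => gam α 0 * (r ^ n / gam α n) := by
    funext n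
    rw [← gam_ratio hα, norm_mul, norm_pow, Complex.norm_real, Complex.norm_real,
      Real.norm_of_nonneg h0, Real.norm_of_nonneg]
    · ring
    · exact (div_pos (gam_pos hα 0) (gam_pos hα n)).le
  rw [h3] at h2
  exact (summable_mul_left_iff (gam_pos hα 0).ne').mp h2

/-- The reproducing kernel. -/
def kk (hα : 0 ≤ α) (l : ℂ) : HB α := ∑' n : ℕ, ((conj l) ^ n / (gam α n : ℂ)) • ee hα n

lemma norm_term_le (hα : 0 ≤ α) {l : ℂ} {r : ℝ} (hl : ‖l‖ ≤ r) (n : ℕ) :
    ‖((conj l) ^ n / (gam α n : ℂ)) • ee hα n‖ ≤ r ^ n / gam α n * ‖ee hα 0‖ := by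
  rw [norm_smul, norm_div, norm_pow, RCLike.norm_conj, Complex.norm_real,
    Real.norm_of_nonneg (gam_pos hα n).le]
  have h1 := norm_ee_le hα n
  have h2 := gam_pos hα n
  have h3 : ‖l‖ ^ n ≤ r ^ n := pow_le_pow_left₀ (norm_nonneg l) hl n
  have h4 : 0 ≤ r ^ n := (pow_nonneg (norm_nonneg l) n).trans h3
  gcongr

lemma hasSum_kk (hα : 0 ≤ α) {l : ℂ} (hl : ‖l‖ < 1) :
    HasSum (fun n : ℕ => ((conj l) ^ n / (gam α n : ℂ)) • ee hα n) (kk hα l) := by
  refine Summable.hasSum ?_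
  refine Summable.of_norm_bounded ((summable_gam hα (norm_nonneg l) hl).mul_right ‖ee hα 0‖) ?_
  intro n
  exact norm_term_le hα le_rfl n

lemma norm_kk_le (hα : 0 ≤ α) {l : ℂ} {r : ℝ} (hl : ‖l‖ ≤ r) (hr : r < 1) :
    ‖kk hα l‖ ≤ ∑' n : ℕ, r ^ n / gam α n * ‖ee hα 0‖ := by
  have h0 : 0 ≤ r := (norm_nonneg l).trans hl
  exact tsum_of_norm_bounded ((summable_gam hα h0 hr).mul_right ‖ee hα 0‖).hasSum
    (norm_term_le hα hl)

/-- Evaluation at a point. -/
def ev (hα : 0 ≤ α) (l : ℂ) : HB α →L[ℂ] ℂ := innerSL ℂ (kk hα l)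

lemma hasSum_ev (hα : 0 ≤ α) {l : ℂ} (hl : ‖l‖ < 1) (w : HB α) :
    HasSum (fun n : ℕ => (l ^ n / (gam α n : ℂ)) * inner ℂ (ee hα n) w) (ev hα l w) := by
  have h := (innerSLFlip ℂ w).hasSum (hasSum_kk hα hl)
  simp only [innerSLFlip_apply_apply, inner_smul_left] at h
  have e : (fun n : ℕ => (l ^ n / (gam α n : ℂ)) * inner ℂ (ee hα n) w) =
      fun n : ℕ => conj ((conj l) ^ n / (gam α n : ℂ)) * inner ℂ (ee hα n) w := by
    funext n
    rw [map_div₀, map_pow, Complex.conj_conj, Complex.conj_ofReal]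
  rw [e]
  exact h

lemma ev_ee (hα : 0 ≤ α) {l : ℂ} (hl : ‖l‖ < 1) (n : ℕ) : ev hα l (ee hα n) = l ^ n := by
  have h := hasSum_ev hα hl (ee hα n)
  have h1 : ∀ m, m ≠ n → (l ^ m / (gam α m : ℂ)) * inner ℂ (ee hα m) (ee hα n) = 0 := by
    intro m hm
    rw [inner_ee, if_neg hm, mul_zero]
  have h2 := (hasSum_single n h1).unique h
  rw [← h2, inner_ee, if_pos rfl]
  have := (gam_pos hα n).ne'
  have h3 : (gam α n : ℂ) ≠ 0 := by exact_mod_cast this
  field_simp

lemma norm_ev_le (hα : 0 ≤ α) {l : ℂ} {r : ℝ} (hl : ‖l‖ ≤ r) (hr : r < 1) (f : HB α) :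
    ‖ev hα l f‖ ≤ (∑' n : ℕ, r ^ n / gam α n * ‖ee hα 0‖) * ‖f‖ := by
  have h1 : ‖ev hα l f‖ ≤ ‖kk hα l‖ * ‖f‖ := norm_inner_le_norm (𝕜 := ℂ) (kk hα l) f
  exact h1.trans (mul_le_mul_of_nonneg_right (norm_kk_le hα hl hr) (norm_nonneg _))

/-- Polynomials. -/
def PP (hα : 0 ≤ α) : Submodule ℂ (HB α) := Submodule.span ℂ (range (ee hα))

/-- The Bergman space. -/
def AA (hα : 0 ≤ α) : Submodule ℂ (HB α) := (PP hα).topologicalClosure

lemma ee_mem (hα : 0 ≤ α) (n : ℕ) : ee hα n ∈ AA hα :=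
  Submodule.le_topologicalClosure _ (Submodule.subset_span ⟨n, rfl⟩)

/-- For a polynomial, evaluation represents it. -/
lemma PP_rep (hα : 0 ≤ α) {f : HB α} (hf : f ∈ PP hα) :
    DifferentiableOn ℂ (fun l => ev hα l f) DD ∧
    (f : ℂ → ℂ) =ᵐ[bm α] fun l => ev hα l f := by
  refine Submodule.span_induction (p := fun f _ => DifferentiableOn ℂ (fun l => ev hα l f) DD ∧
    (f : ℂ → ℂ) =ᵐ[bm α] fun l => ev hα l f) ?_ ?_ ?_ ?_ hf
  · rintro _ ⟨n, rfl⟩
    constructor
    · refine DifferentiableOn.congr (f := fun z : ℂ => z ^ n) (by fun_prop) ?_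
      intro z hz
      exact ev_ee hα (by simpa using hz) n
    · filter_upwards [coeFn_ee hα n, ae_mem] with z h1 hz
      rw [h1, ev_ee hα (by simpa using hz) n]
  · constructor
    · simp
    · filter_upwards [Lp.coeFn_zero ℂ 2 (bm α)] with z h1
      rw [h1]; simp
  · intro x y _ _ hx hy
    constructor
    · have := hx.1.add hy.1
      refine this.congr fun z _ => ?_
      simp
    · filter_upwards [hx.2, hy.2, Lp.coeFn_add x y] with z h1 h2 h3
      rw [h3, Pi.add_apply, h1, h2, map_add]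
  · intro c x _ hx
    constructor
    · simpa using hx.1.const_mul c
    · filter_upwards [hx.2, Lp.coeFn_smul c x] with z h1 h2
      rw [h2, Pi.smul_apply, h1, map_smul]

/-- Every element of the Bergman space is represented by its evaluation, a holomorphic function. -/
lemma AA_rep (hα : 0 ≤ α) {f : HB α} (hf : f ∈ AA hα) :
    DifferentiableOn ℂ (fun l => ev hα l f) DD ∧
    (f : ℂ → ℂ) =ᵐ[bm α] fun l => ev hα l f := by
  obtain ⟨u, hu, hlim⟩ := mem_closure_iff_seq_limit.mp hf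
  constructor
  · have hloc : TendstoLocallyUniformlyOn (fun n l => ev hα l (u n)) (fun l => ev hα l f) atTop DD := by
      rw [Metric.tendstoLocallyUniformlyOn_iff]
      intro ε hε z hz
      have hz' : ‖z‖ < 1 := by simpa using hz
      obtain ⟨r, hr1, hr2⟩ := exists_between hz'
      have h0 : 0 ≤ r := (norm_nonneg z).trans hr1.le
      refine ⟨Metric.ball 0 r, mem_nhdsWithin_of_mem_nhds (Metric.isOpen_ball.mem_nhds (by simpa using hr1)), ?_⟩
      set B := ∑' n : ℕ, r ^ n / gam α n * ‖ee hα 0‖ with hB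
      have hlim2 : Tendsto (fun n => B * ‖f - u n‖) atTop (𝓝 0) := by
        have := (tendsto_const_nhds (x := f)).sub hlim
        rw [sub_self] at this
        simpa using (this.norm).const_mul B
      filter_upwards [hlim2.eventually (gt_mem_nhds hε)] with n hn l hl
      have hl' : ‖l‖ ≤ r := by
        have : ‖l‖ < r := by simpa using hl
        exact this.le
      rw [dist_eq_norm, ← map_sub]
      exact (norm_ev_le hα hl' hr2 _).trans_lt hn
    exact hloc.differentiableOn (Eventually.of_forall fun n => (PP_rep hα (hu n)).1)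
      Metric.isOpen_ball
  · obtain ⟨ns, hns, hae⟩ := (tendstoInMeasure_of_tendsto_Lp hlim).exists_seq_tendsto_ae
    have h1 : ∀ᵐ z ∂(bm α), ∀ n, (u n : ℂ → ℂ) z = ev hα z (u n) := by
      rw [ae_all_iff]
      exact fun n => (PP_rep hα (hu n)).2
    filter_upwards [hae, h1, ae_mem] with z h2 h3 hz
    refine tendsto_nhds_unique h2 ?_
    simp only [h3]
    exact ((ev hα z).continuous.tendsto f).comp (hlim.comp hns.tendsto_atTop)

/-! ### Multiplication by the coordinate -/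

lemma memLp_id : MemLp (fun z : ℂ => z) ∞ (bm α) := by
  refine memLp_top_of_bound (by fun_prop) 1 ?_
  filter_upwards [ae_mem] with z hz
  have hz' : ‖z‖ < 1 := by simpa using hz
  exact hz'.le

/-- Multiplication by the coordinate. -/
def MZ (α : ℝ) : HB α →L[ℂ] HB α :=
  (ContinuousLinearMap.mul ℂ ℂ).holderL (bm α) ∞ 2 2 ((memLp_id (α := α)).toLp _)

lemma coeFn_MZ (f : HB α) : (MZ α f : ℂ → ℂ) =ᵐ[bm α] fun z => z * f z := by
  have h1 := (ContinuousLinearMap.mul ℂ ℂ).coeFn_holder (r := 2)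
    ((memLp_id (α := α)).toLp _) f
  have h2 := MemLp.coeFn_toLp (memLp_id (α := α))
  filter_upwards [h1, h2] with x hx1 hx2
  change ((ContinuousLinearMap.mul ℂ ℂ).holder 2 ((memLp_id (α := α)).toLp _) f) x = _
  rw [hx1, hx2]
  rfl

lemma MZ_ee (hα : 0 ≤ α) (n : ℕ) : MZ α (ee hα n) = ee hα (n + 1) := by
  apply Lp.ext
  filter_upwards [coeFn_MZ (ee hα n), coeFn_ee hα n, coeFn_ee hα (n + 1)] with z h1 h2 h3
  rw [h1, h2, h3, pow_succ']

lemma MZ_mem (hα : 0 ≤ α) {f : HB α} (hf : f ∈ AA hα) : MZ α f ∈ AA hα := by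
  have h1 : PP hα ≤ (PP hα).comap (MZ α).toLinearMap := by
    unfold PP
    rw [Submodule.span_le]
    rintro _ ⟨n, rfl⟩
    change MZ α (ee hα n) ∈ Submodule.span ℂ (range (ee hα))
    rw [MZ_ee]
    exact Submodule.subset_span ⟨n + 1, rfl⟩
  have h2 : MapsTo (MZ α) (PP hα) (PP hα) := fun x hx => h1 hx
  exact map_mem_closure (MZ α).continuous hf h2

lemma ev_MZ (hα : 0 ≤ α) {l : ℂ} (hl : ‖l‖ < 1) {f : HB α} (hf : f ∈ AA hα) :
    ev hα l (MZ α f) = l * ev hα l f := by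
  have h : AA hα ≤ ((ev hα l).comp (MZ α) - l • ev hα l).ker := by
    apply Submodule.topologicalClosure_minimal
    · unfold PP
      rw [Submodule.span_le]
      rintro _ ⟨n, rfl⟩
      simp [MZ_ee, ev_ee hα hl, pow_succ', sub_self]
    · exact ContinuousLinearMap.isClosed_ker _
  have h2 := h hf
  rw [LinearMap.mem_ker] at h2
  simpa [sub_eq_zero] using h2

end

end Pool.Agent.Run7.h235.Berg
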