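import Mathlib

/-!
# Radial moments of the weighted Bergman measure
-/

set_option autoImplicit false

open MeasureTheory Set Filter Topology

namespace Pool.Agent.Run7.h235.Berg

noncomputable section

/-- The radial integral. -/
def JJ (α : ℝ) (n : ℕ) : ℝ := ∫ r in (0 : ℝ)..1, r ^ (2 * n + 1) * (1 - r ^ 2) ^ α

lemma cont_JJ {α : ℝ} (hα : 0 ≤ α) (n : ℕ) :
    Continuous (fun r : ℝ => r ^ n * (1 - r ^ 2) ^ α) := by
  apply (continuous_id.pow n).mul
  exact Continuous.rpow_const (by fun_prop) (fun _ => Or.inr hα)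

lemma JJ_pos {α : ℝ} (hα : 0 ≤ α) (n : ℕ) : 0 < JJ α n := by
  unfold JJ
  apply intervalIntegral.intervalIntegral_pos_of_pos_on
  · exact (cont_JJ hα _).intervalIntegrable _ _
  · intro x hx
    have h1 : 0 < x := hx.1
    have h2 : 0 < 1 - x ^ 2 := by nlinarith [hx.1, hx.2]
    positivity
  · norm_num

lemma JJ_rec {α : ℝ} (hα : 0 ≤ α) (n : ℕ) :
    ((n : ℝ) + 1) * JJ α n = (n + α + 2) * JJ α (n + 1) := by
  have hd : ∀ r ∈ uIcc (0 : ℝ) 1, HasDerivAt (fun r : ℝ => r ^ (2 * n + 2) * (1 - r ^ 2) ^ (α + 1))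
      (((2 * n + 2 : ℕ) : ℝ) * r ^ (2 * n + 1) * (1 - r ^ 2) ^ (α + 1) +
        r ^ (2 * n + 2) * (-(2 * r) * (α + 1) * (1 - r ^ 2) ^ α)) r := by
    intro r _
    have h1 : HasDerivAt (fun r : ℝ => r ^ (2 * n + 2)) (((2 * n + 2 : ℕ) : ℝ) * r ^ (2 * n + 1)) r := by
      simpa using hasDerivAt_pow (2 * n + 2) r
    have h2 : HasDerivAt (fun r : ℝ => 1 - r ^ 2) (-(2 * r)) r := by
      have := (hasDerivAt_pow 2 r).const_sub 1
      simpa using this
    have h3 := h2.rpow_const (p := α + 1) (Or.inr (by linarith))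
    rw [add_sub_cancel_right] at h3
    exact h1.mul h3
  have hc : Continuous (fun r : ℝ => (((2 * n + 2 : ℕ) : ℝ) * r ^ (2 * n + 1) * (1 - r ^ 2) ^ (α + 1) +
        r ^ (2 * n + 2) * (-(2 * r) * (α + 1) * (1 - r ^ 2) ^ α))) := by
    have e1 : Continuous (fun r : ℝ => (1 - r ^ 2) ^ (α + 1)) :=
      Continuous.rpow_const (by fun_prop) (fun _ => Or.inr (by linarith))
    have e2 : Continuous (fun r : ℝ => (1 - r ^ 2) ^ α) :=
      Continuous.rpow_const (by fun_prop) (fun _ => Or.inr hα)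
    fun_prop
  have hI := intervalIntegral.integral_eq_sub_of_hasDerivAt hd (hc.intervalIntegrable _ _)
  have hz : (1 : ℝ) ^ (2 * n + 2) * (1 - 1 ^ 2) ^ (α + 1) - 0 ^ (2 * n + 2) * (1 - 0 ^ 2) ^ (α + 1) = 0 := by
    rw [one_pow, one_pow, sub_self, Real.zero_rpow (by linarith)]
    simp
  rw [hz] at hI
  have hcongr : ∫ r in (0 : ℝ)..1, (((2 * n + 2 : ℕ) : ℝ) * r ^ (2 * n + 1) * (1 - r ^ 2) ^ (α + 1) +
        r ^ (2 * n + 2) * (-(2 * r) * (α + 1) * (1 - r ^ 2) ^ α)) =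
      ∫ r in (0 : ℝ)..1, ((2 * (n : ℝ) + 2) * (r ^ (2 * n + 1) * (1 - r ^ 2) ^ α) -
        (2 * n + 2 * α + 4) * (r ^ (2 * (n + 1) + 1) * (1 - r ^ 2) ^ α)) := by
    apply intervalIntegral.integral_congr
    intro r hr
    rw [uIcc_of_le zero_le_one] at hr
    have h0 : 0 ≤ 1 - r ^ 2 := by nlinarith [hr.1, hr.2]
    have h1 : (1 - r ^ 2) ^ (α + 1) = (1 - r ^ 2) ^ α * (1 - r ^ 2) := by
      rcases h0.eq_or_lt with h | h
      · rw [← h, Real.zero_rpow (by linarith), mul_zero]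
      · rw [Real.rpow_add h, Real.rpow_one]
    simp only
    rw [h1]
    push_cast
    ring
  rw [hcongr, intervalIntegral.integral_sub, intervalIntegral.integral_const_mul,
    intervalIntegral.integral_const_mul] at hI
  · change (2 * (n : ℝ) + 2) * JJ α n - (2 * n + 2 * α + 4) * JJ α (n + 1) = 0 at hI
    linarith
  · exact ((cont_JJ hα _).const_mul _).intervalIntegrable _ _
  · exact ((cont_JJ hα _).const_mul _).intervalIntegrable _ _

lemma multichoose_rec (r : ℝ) (n : ℕ) :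
    ((n : ℝ) + 1) * Ring.multichoose r (n + 1) = (r + n) * Ring.multichoose r n := by
  have h1 := Ring.factorial_nsmul_multichoose_eq_ascPochhammer r n
  have h2 := Ring.factorial_nsmul_multichoose_eq_ascPochhammer r (n + 1)
  rw [Polynomial.ascPochhammer_smeval_eq_eval] at h1 h2
  have h3 := ascPochhammer_succ_eval n r
  rw [h3, ← h1, nsmul_eq_mul, nsmul_eq_mul, Nat.factorial_succ] at h2
  push_cast at h2
  have h4 : ((n.factorial : ℕ) : ℝ) ≠ 0 := by exact_mod_cast Nat.factorial_ne_zero n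
  have : ((n.factorial : ℕ) : ℝ) * (((n : ℝ) + 1) * Ring.multichoose r (n + 1)) =
      ((n.factorial : ℕ) : ℝ) * ((r + n) * Ring.multichoose r n) := by linarith
  exact mul_left_cancel₀ h4 this

lemma JJ_ratio {α : ℝ} (hα : 0 ≤ α) (n : ℕ) :
    JJ α 0 / JJ α n = Ring.multichoose (α + 2) n := by
  induction n with
  | zero => rw [Ring.multichoose_zero_right, div_self (JJ_pos hα 0).ne']
  | succ n ih =>
    have h1 := multichoose_rec (α + 2) n
    have h2 := JJ_rec hα n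
    have p0 := JJ_pos hα n
    have p1 := JJ_pos hα (n + 1)
    rw [← ih] at h1
    have h3 : ((n : ℝ) + 1) ≠ 0 := by positivity
    have h4 : ((n : ℝ) + 1) * (JJ α 0 / JJ α (n + 1)) = ((n : ℝ) + 1) * Ring.multichoose (α + 2) (n + 1) := by
      rw [h1]
      field_simp
      linear_combination (JJ α 0) * h2
    exact mul_left_cancel₀ h3 h4

/-- The binomial series. -/
lemma hasSum_ratio {α : ℝ} (hα : 0 ≤ α) {x : ℂ} (hx : ‖x‖ < 1) :
    HasSum (fun n : ℕ => ((JJ α 0 / JJ α n : ℝ) : ℂ) * x ^ n)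
      (1 / (1 - x) ^ ((α + 2 : ℝ) : ℂ)) := by
  have h := Complex.one_div_one_sub_cpow_hasFPowerSeriesOnBall_zero ((α + 2 : ℝ) : ℂ)
  have hx' : x ∈ Metric.eball (0 : ℂ) 1 := by
    rw [← ENNReal.ofReal_one, Metric.eball_ofReal]
    simpa using hx
  have h1 := h.hasSum hx'
  rw [zero_add] at h1
  have h2 : (fun n : ℕ => ((JJ α 0 / JJ α n : ℝ) : ℂ) * x ^ n) = fun n : ℕ =>
      (FormalMultilinearSeries.ofScalars ℂ
        fun n => Ring.choose (((α + 2 : ℝ) : ℂ) + n - 1) n) n fun _ => x := by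
    funext n
    rw [FormalMultilinearSeries.ofScalars_apply_eq, smul_eq_mul, JJ_ratio hα,
      ← Ring.multichoose_eq]
    congr 1
    exact Ring.map_multichoose Complex.ofRealHom _ _
  rw [h2]
  exact h1

end

end Pool.Agent.Run7.h235.Berg
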