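import Pool.Agent.Run7.h235.Berg

/-!
# An invariant subspace not generated by its wandering subspace
-/

set_option autoImplicit false

open MeasureTheory Set Filter Topology ComplexConjugate
open scoped ENNReal

namespace Pool.Agent.Run7.h235.Berg

noncomputable section

/-- The choice of the two points. -/
lemma exists_points {α : ℝ} (hα : 4 < α) : ∃ (a : ℝ) (b : ℂ), 0 < a ∧ a < 1 ∧ ‖b‖ < 1 ∧
    b ≠ (a : ℂ) ∧ (1 - (a : ℂ) * b) ^ ((α + 2 : ℝ) : ℂ) =
      (1 - (a : ℂ) * a) ^ ((α + 2 : ℝ) : ℂ) := by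
  have hpi := Real.pi_pos
  set ψ : ℝ := 2 * Real.pi / (α + 2) with hψ
  have hα2 : 0 < α + 2 := by linarith
  have hψ0 : 0 < ψ := by positivity
  have hψ1 : ψ < Real.pi / 3 := by
    rw [hψ, div_lt_div_iff₀ hα2 (by norm_num)]
    nlinarith
  have hcos : 1 / 2 < Real.cos ψ := by
    rw [← Real.cos_pi_div_three]
    exact Real.cos_lt_cos_of_nonneg_of_le_pi hψ0.le (by linarith) hψ1
  set s : ℝ := (2 * Real.cos ψ - 1) / 2 with hs
  have hs0 : 0 < s := by rw [hs]; linarith
  have hs1 : s < 1 := by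
    have := Real.cos_le_one ψ
    rw [hs]; linarith
  set a : ℝ := Real.sqrt (1 - s) with ha
  have ha2 : a ^ 2 = 1 - s := Real.sq_sqrt (by linarith)
  have ha0 : 0 < a := Real.sqrt_pos.mpr (by linarith)
  have ha1 : a < 1 := by
    nlinarith
  have haC : (a : ℂ) ≠ 0 := by exact_mod_cast ha0.ne'
  set b : ℂ := (1 - (s : ℂ) * Complex.exp (ψ * Complex.I)) / a with hb
  have hab : (a : ℂ) * b = 1 - (s : ℂ) * Complex.exp (ψ * Complex.I) := by
    rw [hb]; field_simp
  have haa : (a : ℂ) * a = 1 - (s : ℂ) := by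
    rw [← pow_two]; exact_mod_cast ha2
  refine ⟨a, b, ha0, ha1, ?_, ?_, ?_⟩
  · -- norm
    have h1 : ‖(a : ℂ) * b‖ ^ 2 = 1 - 2 * s * Real.cos ψ + s ^ 2 := by
      rw [hab, ← Complex.normSq_eq_norm_sq, Complex.normSq_apply]
      simp only [Complex.sub_re, Complex.sub_im, Complex.one_re, Complex.one_im, Complex.mul_re,
        Complex.mul_im, Complex.ofReal_re, Complex.ofReal_im, Complex.exp_ofReal_mul_I_re,
        Complex.exp_ofReal_mul_I_im]
      nlinarith [Real.sin_sq_add_cos_sq ψ]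
    rw [norm_mul, Complex.norm_real, Real.norm_of_nonneg ha0.le, mul_pow, ha2] at h1
    have h2 : (1 - s) * ‖b‖ ^ 2 < (1 - s) * 1 := by
      rw [h1]
      have : 2 * Real.cos ψ = 2 * s + 1 := by rw [hs]; ring
      nlinarith
    have h3 : ‖b‖ ^ 2 < 1 := lt_of_mul_lt_mul_left h2 (by linarith)
    nlinarith [norm_nonneg b]
  · intro h
    rw [h, haa] at hab
    have h1 : (s : ℂ) * (1 - Complex.exp (ψ * Complex.I)) = 0 := by linear_combination -hab
    have h2 := congrArg Complex.im h1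
    simp only [Complex.sub_im, Complex.one_im, Complex.mul_im, Complex.ofReal_re,
      Complex.ofReal_im, Complex.exp_ofReal_mul_I_im, Complex.zero_im, zero_mul, add_zero] at h2
    have h3 : 0 < Real.sin ψ := Real.sin_pos_of_pos_of_lt_pi hψ0 (by linarith)
    nlinarith [mul_pos hs0 h3]
  · rw [hab, haa, sub_sub_cancel, sub_sub_cancel]
    have h1 : (s : ℂ) * Complex.exp (ψ * Complex.I) =
        Complex.exp ((Real.log s : ℂ) + ψ * Complex.I) := by
      rw [Complex.exp_add, ← Complex.ofReal_exp, Real.exp_log hs0]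
    have h2 : (s : ℂ) = Complex.exp (Real.log s : ℂ) := by
      rw [← Complex.ofReal_exp, Real.exp_log hs0]
    have h3 : Complex.log ((s : ℂ) * Complex.exp (ψ * Complex.I)) =
        (Real.log s : ℂ) + ψ * Complex.I := by
      rw [h1, Complex.log_exp]
      · simp; linarith
      · simp; linarith
    have h4 : Complex.log (s : ℂ) = (Real.log s : ℂ) := (Complex.ofReal_log hs0.le).symm
    have hsC : (s : ℂ) ≠ 0 := by exact_mod_cast hs0.ne'
    rw [Complex.cpow_def_of_ne_zero (mul_ne_zero hsC (Complex.exp_ne_zero _)),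
      Complex.cpow_def_of_ne_zero hsC, h3, h4, add_mul, Complex.exp_add]
    have h5 : (ψ : ℂ) * Complex.I * ((α + 2 : ℝ) : ℂ) = 2 * Real.pi * Complex.I := by
      rw [hψ]
      have : ((α + 2 : ℝ) : ℂ) ≠ 0 := by exact_mod_cast hα2.ne'
      push_cast at this ⊢
      field_simp
    rw [h5, Complex.exp_two_pi_mul_I, mul_one]

/-- The wandering condition forces `w` to take the same value at `a` and at `b`. -/
lemma ev_eq {α : ℝ} (hα : 0 ≤ α) {a : ℝ} {b : ℂ} (ha0 : 0 < a) (ha1 : a < 1) (hb : ‖b‖ < 1)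
    (hab : (1 - (a : ℂ) * b) ^ ((α + 2 : ℝ) : ℂ) = (1 - (a : ℂ) * a) ^ ((α + 2 : ℝ) : ℂ))
    (w : HB α)
    (hw : ∀ n : ℕ, inner ℂ (ee hα (n + 2) - (a : ℂ) • ee hα (n + 1)) w = (0 : ℂ)) :
    ev hα b w = ev hα a w := by
  have haC : (a : ℂ) ≠ 0 := by exact_mod_cast ha0.ne'
  have han : ‖(a : ℂ)‖ < 1 := by
    rw [Complex.norm_real, Real.norm_of_nonneg ha0.le]; exact ha1
  set c : ℕ → ℂ := fun n => inner ℂ (ee hα n) w with hc
  have h1 : ∀ n, c (n + 2) = a * c (n + 1) := by
    intro n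
    have := hw n
    rw [inner_sub_left, inner_smul_left, Complex.conj_ofReal] at this
    exact sub_eq_zero.mp this
  have h2 : ∀ n, c (n + 1) = (a : ℂ) ^ n * c 1 := by
    intro n
    induction n with
    | zero => simp
    | succ n ih => rw [h1, ih]; ring
  have key : ∀ l : ℂ, ‖l‖ < 1 → ev hα l w = (c 0 - c 1 / a) / gam α 0 +
      c 1 / (a * gam α 0) * (1 / (1 - (a : ℂ) * l) ^ ((α + 2 : ℝ) : ℂ)) := by
    intro l hl
    have hal : ‖(a : ℂ) * l‖ < 1 := by
      rw [norm_mul]
      calc _ ≤ ‖(a : ℂ)‖ * 1 := by gcongr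
        _ < 1 := by rw [mul_one]; exact han
    have g0 : (gam α 0 : ℂ) ≠ 0 := by exact_mod_cast (gam_pos hα 0).ne'
    have s1 := (hasSum_ratio hα hal).mul_left (c 1 / (a * gam α 0))
    have s2 : HasSum (fun n : ℕ => if n = 0 then (c 0 - c 1 / a) / (gam α 0 : ℂ) else 0)
        ((c 0 - c 1 / a) / (gam α 0 : ℂ)) := hasSum_ite_eq 0 _
    have s3 := s2.add s1
    refine (hasSum_ev hα hl w).unique ?_
    convert s3 using 1
    funext n
    have gn : (gam α n : ℂ) ≠ 0 := by exact_mod_cast (gam_pos hα n).ne'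
    rw [← gam_ratio hα]
    push_cast
    rcases n with _ | n
    · simp only [if_true, pow_zero, mul_one]
      change 1 / (gam α 0 : ℂ) * c 0 = _
      field_simp
      ring
    · rw [if_neg (Nat.succ_ne_zero n), zero_add]
      change l ^ (n + 1) / (gam α (n + 1) : ℂ) * c (n + 1) = _
      rw [h2 n]
      field_simp
      ring
  rw [key b hb, key a han, hab]

theorem main {α : ℝ} (hα4 : 4 < α) :
      ∃ V : Submodule ℂ (Lp ℂ 2 (bm α)),
        IsClosed (V : Set (Lp ℂ 2 (bm α))) ∧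
        (∀ f ∈ V, ∃ g : ℂ → ℂ,
            DifferentiableOn ℂ g (Metric.ball (0 : ℂ) 1) ∧ (f : ℂ → ℂ) =ᵐ[bm α] g) ∧
        (∀ f ∈ V, ∃ g ∈ V, (g : ℂ → ℂ) =ᵐ[bm α] fun z => z * f z) ∧
        ¬ (V ≤ (Submodule.span ℂ
              {h : Lp ℂ 2 (bm α) | ∃ p : Polynomial ℂ, ∃ w ∈ V,
                (∀ f ∈ V, ∀ g ∈ V,
                    (g : ℂ → ℂ) =ᵐ[bm α] (fun z => z * f z) → inner ℂ g w = 0) ∧
                (h : ℂ → ℂ) =ᵐ[bm α] fun z => p.eval z * w z}).topologicalClosure) := by
  have hα : 0 ≤ α := by linarith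
  obtain ⟨a, b, ha0, ha1, hb, hba, hab⟩ := exists_points hα4
  have han : ‖(a : ℂ)‖ < 1 := by
    rw [Complex.norm_real, Real.norm_of_nonneg ha0.le]; exact ha1
  refine ⟨AA hα ⊓ (ev hα a).ker, ?_, ?_, ?_, ?_⟩
  · rw [Submodule.coe_inf]
    exact (Submodule.isClosed_topologicalClosure _).inter (ContinuousLinearMap.isClosed_ker _)
  · intro f hf
    exact ⟨_, AA_rep hα hf.1⟩
  · intro f hf
    refine ⟨MZ α f, ⟨MZ_mem hα hf.1, ?_⟩, coeFn_MZ f⟩
    have h0 : ev hα a f = 0 := hf.2
    change ev hα a (MZ α f) = 0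
    rw [ev_MZ hα han hf.1, h0, mul_zero]
  · intro hle
    have hmem : ∀ n, ee hα (n + 1) - (a : ℂ) • ee hα n ∈ AA hα ⊓ (ev hα a).ker := by
      intro n
      refine ⟨(AA hα).sub_mem (ee_mem hα _) ((AA hα).smul_mem _ (ee_mem hα _)), ?_⟩
      change ev hα a _ = 0
      rw [map_sub, map_smul, ev_ee hα han, ev_ee hα han, smul_eq_mul]
      ring
    have hspan : (Submodule.span ℂ
              {h : Lp ℂ 2 (bm α) | ∃ p : Polynomial ℂ, ∃ w ∈ AA hα ⊓ (ev hα a).ker,
                (∀ f ∈ AA hα ⊓ (ev hα a).ker, ∀ g ∈ AA hα ⊓ (ev hα a).ker,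
                    (g : ℂ → ℂ) =ᵐ[bm α] (fun z => z * f z) → inner ℂ g w = (0 : ℂ)) ∧
                (h : ℂ → ℂ) =ᵐ[bm α] fun z => p.eval z * w z}).topologicalClosure ≤
        (ev hα b).ker := by
      apply Submodule.topologicalClosure_minimal
      · rw [Submodule.span_le]
        rintro h ⟨p, w, hw, hwand, hh⟩
        change ev hα b h = 0
        have hwb : ev hα b w = 0 := by
          have h0 : ev hα a w = 0 := hw.2
          rw [← h0]
          apply ev_eq hα ha0 ha1 hb hab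
          intro n
          apply hwand _ (hmem n) _ (hmem (n + 1))
          have h1 : ee hα (n + 2) - (a : ℂ) • ee hα (n + 1) =
              MZ α (ee hα (n + 1) - (a : ℂ) • ee hα n) := by
            rw [map_sub, map_smul, MZ_ee, MZ_ee]
          rw [h1]
          exact coeFn_MZ _
        obtain ⟨h', hA, hh', hev⟩ : ∃ h' ∈ AA hα, (h' : ℂ → ℂ) =ᵐ[bm α] (fun z => p.eval z * w z) ∧
            ev hα b h' = 0 := by
          clear hh
          induction p using Polynomial.induction_on' with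
          | add p q hp hq =>
            obtain ⟨x, hx1, hx2, hx3⟩ := hp
            obtain ⟨y, hy1, hy2, hy3⟩ := hq
            refine ⟨x + y, (AA hα).add_mem hx1 hy1, ?_, by rw [map_add, hx3, hy3, add_zero]⟩
            filter_upwards [hx2, hy2, Lp.coeFn_add x y] with z h1 h2 h3
            rw [h3, Pi.add_apply, h1, h2, Polynomial.eval_add, add_mul]
          | monomial n c =>
            induction n with
            | zero =>
              refine ⟨c • w, (AA hα).smul_mem _ hw.1, ?_, by rw [map_smul, hwb, smul_zero]⟩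
              filter_upwards [Lp.coeFn_smul c w] with z h1
              rw [h1, Pi.smul_apply, Polynomial.eval_monomial, pow_zero, mul_one, smul_eq_mul]
            | succ n ih =>
              obtain ⟨x, hx1, hx2, hx3⟩ := ih
              refine ⟨MZ α x, MZ_mem hα hx1, ?_, by rw [ev_MZ hα hb hx1, hx3, mul_zero]⟩
              filter_upwards [hx2, coeFn_MZ x] with z h1 h2
              rw [h2, h1, Polynomial.eval_monomial, Polynomial.eval_monomial]
              ring
        have : h = h' := by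
          apply Lp.ext
          exact hh.trans hh'.symm
        rw [this, hev]
      · exact ContinuousLinearMap.isClosed_ker _
    have h1 := hspan (hle (hmem 0))
    have h2 : ev hα b (ee hα (0 + 1) - (a : ℂ) • ee hα 0) = 0 := h1
    rw [map_sub, map_smul, ev_ee hα hb, ev_ee hα hb, smul_eq_mul] at h2
    apply hba
    simpa [sub_eq_zero] using h2

end

end Pool.Agent.Run7.h235.Berg
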