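import Pool.Agent.Run7.h235.RieszMeasure

/-!
# Multiplication operators on `L²` of a measure on the interval and their weak stability
-/

set_option autoImplicit false

open MeasureTheory Set Filter Topology
open scoped ENNReal

namespace Pool.Agent.Run7.h235.Riesz

noncomputable section

variable (μ : Measure KK) [IsFiniteMeasure μ]

/-- The Hilbert space. -/
abbrev HH : Type := Lp ℂ 2 μ

/-- Multiplication by a continuous function. -/
def MM : C(KK, ℂ) →L[ℂ] (HH μ →L[ℂ] HH μ) :=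
  ((ContinuousLinearMap.mul ℂ ℂ).holderL μ ∞ 2 2).comp (ContinuousMap.toLp ∞ μ ℂ)

lemma coeFn_MM (g : C(KK, ℂ)) (f : HH μ) : (MM μ g f : KK → ℂ) =ᵐ[μ] fun x => g x * f x := by
  have h1 := (ContinuousLinearMap.mul ℂ ℂ).coeFn_holder (r := 2)
    (ContinuousMap.toLp (E := ℂ) ∞ μ ℂ g) f
  have h2 := ContinuousMap.coeFn_toLp (p := ∞) (𝕜 := ℂ) μ g
  filter_upwards [h1, h2] with x hx1 hx2
  change ((ContinuousLinearMap.mul ℂ ℂ).holder 2 (ContinuousMap.toLp (E := ℂ) ∞ μ ℂ g) f) x = _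
  rw [hx1, hx2]
  rfl

lemma MM_mul (g h : C(KK, ℂ)) : MM μ (g * h) = MM μ g * MM μ h := by
  ext1 f
  apply Lp.ext
  have h1 := coeFn_MM μ (g * h) f
  have h2 := coeFn_MM μ g (MM μ h f)
  have h3 := coeFn_MM μ h f
  filter_upwards [h1, h2, h3] with x hx1 hx2 hx3
  change _ = ((MM μ g (MM μ h f) : HH μ) : KK → ℂ) x
  rw [hx1, hx2, hx3, ContinuousMap.mul_apply, mul_assoc]

lemma MM_one : MM μ 1 = 1 := by
  ext1 f
  apply Lp.ext
  filter_upwards [coeFn_MM μ 1 f] with x hx
  rw [hx]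
  simp

lemma MM_pow (g : C(KK, ℂ)) (n : ℕ) : MM μ (g ^ n) = MM μ g ^ n := by
  induction n with
  | zero => rw [pow_zero, pow_zero, MM_one]
  | succ n ih => rw [pow_succ, pow_succ, MM_mul, ih]

lemma norm_MM_le (g : C(KK, ℂ)) (C : ℝ) (hC : 0 ≤ C) (hg : ∀ x, ‖g x‖ ≤ C) : ‖MM μ g‖ ≤ C := by
  refine ContinuousLinearMap.opNorm_le_bound _ hC fun f => ?_
  apply Lp.norm_le_mul_norm_of_ae_le_mul
  filter_upwards [coeFn_MM μ g f] with x hx
  rw [hx, norm_mul]
  exact mul_le_mul_of_nonneg_right (hg x) (norm_nonneg _)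

/-- The inner product with two continuous functions. -/
lemma inner_MM (g a b : C(KK, ℂ)) :
    inner ℂ (MM μ g (ContinuousMap.toLp 2 μ ℂ a)) (ContinuousMap.toLp 2 μ ℂ b) =
      ∫ x, b x * (starRingEnd ℂ) (g x * a x) ∂μ := by
  rw [L2.inner_def]
  apply integral_congr_ae
  filter_upwards [coeFn_MM μ g (ContinuousMap.toLp 2 μ ℂ a),
    ContinuousMap.coeFn_toLp (p := 2) (𝕜 := ℂ) μ a,
    ContinuousMap.coeFn_toLp (p := 2) (𝕜 := ℂ) μ b] with x h1 h2 h3
  rw [h1, h2, h3]
  simp [RCLike.inner_apply]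

/-- Weak convergence may be tested on continuous functions. -/
lemma weak_of_continuous {ι : Type} (F : Filter ι) (g : ι → C(KK, ℂ))
    (hg : ∀ i x, ‖g i x‖ ≤ 1)
    (h : ∀ a : C(KK, ℂ), Tendsto (fun i => ∫ x, g i x * a x ∂μ) F (𝓝 0)) (x y : HH μ) :
    Tendsto (fun i => inner ℂ (MM μ (g i) x) y) F (𝓝 0) := by
  have hn : ∀ i, ‖MM μ (g i)‖ ≤ 1 := fun i => norm_MM_le μ (g i) 1 zero_le_one (hg i)
  have hdense := ContinuousMap.toLp_denseRange (E := ℂ) (μ := μ) (p := 2) ℂ (by norm_num)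
  -- continuous functions
  have h0 : ∀ a b : C(KK, ℂ), Tendsto (fun i =>
      inner ℂ (MM μ (g i) (ContinuousMap.toLp 2 μ ℂ a)) (ContinuousMap.toLp 2 μ ℂ b)) F (𝓝 0) := by
    intro a b
    have h1 := (h (a * star b)).star
    rw [star_zero] at h1
    refine h1.congr fun i => ?_
    rw [inner_MM]
    change (starRingEnd ℂ) _ = _
    rw [← integral_conj]
    congr 1
    ext z
    simp only [ContinuousMap.mul_apply, ContinuousMap.star_apply, map_mul]
    have : (starRingEnd ℂ) (star (b z)) = b z := by simp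
    rw [this]
    ring
  -- approximate
  have hbound : ∀ i (u v : HH μ), ‖(inner ℂ (MM μ (g i) u) v : ℂ)‖ ≤ ‖u‖ * ‖v‖ := by
    intro i u v
    refine (norm_inner_le_norm _ _).trans ?_
    apply mul_le_mul_of_nonneg_right _ (norm_nonneg _)
    calc _ ≤ ‖MM μ (g i)‖ * ‖u‖ := (MM μ (g i)).le_opNorm u
      _ ≤ 1 * ‖u‖ := mul_le_mul_of_nonneg_right (hn i) (norm_nonneg _)
      _ = ‖u‖ := one_mul _
  rw [Metric.tendsto_nhds]
  intro ε hε
  -- choose a
  obtain ⟨a, ha⟩ : ∃ a : C(KK, ℂ), ‖x - ContinuousMap.toLp 2 μ ℂ a‖ * ‖y‖ < ε / 3 := by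
    obtain ⟨a, ha⟩ := hdense.exists_dist_lt x (show 0 < ε / (3 * (‖y‖ + 1)) by positivity)
    refine ⟨a, ?_⟩
    rw [dist_eq_norm, lt_div_iff₀ (by positivity)] at ha
    nlinarith [norm_nonneg y, norm_nonneg (x - ContinuousMap.toLp 2 μ ℂ a)]
  obtain ⟨b, hb⟩ : ∃ b : C(KK, ℂ),
      ‖(ContinuousMap.toLp 2 μ ℂ a : HH μ)‖ * ‖y - ContinuousMap.toLp 2 μ ℂ b‖ < ε / 3 := by
    obtain ⟨b, hb⟩ := hdense.exists_dist_lt y
      (show 0 < ε / (3 * (‖(ContinuousMap.toLp 2 μ ℂ a : HH μ)‖ + 1)) by positivity)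
    refine ⟨b, ?_⟩
    rw [dist_eq_norm, lt_div_iff₀ (by positivity)] at hb
    nlinarith [norm_nonneg (ContinuousMap.toLp 2 μ ℂ a : HH μ),
      norm_nonneg (y - ContinuousMap.toLp 2 μ ℂ b)]
  have h2 := (Metric.tendsto_nhds.mp (h0 a b)) (ε / 3) (by positivity)
  filter_upwards [h2] with i hi
  rw [dist_zero_right] at hi ⊢
  have e : (inner ℂ (MM μ (g i) x) y : ℂ) =
      inner ℂ (MM μ (g i) (x - ContinuousMap.toLp 2 μ ℂ a)) y +
      inner ℂ (MM μ (g i) (ContinuousMap.toLp 2 μ ℂ a)) (y - ContinuousMap.toLp 2 μ ℂ b) +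
      inner ℂ (MM μ (g i) (ContinuousMap.toLp 2 μ ℂ a)) (ContinuousMap.toLp 2 μ ℂ b) := by
    rw [map_sub, inner_sub_left, inner_sub_right]
    ring
  rw [e]
  calc _ ≤ _ := norm_add₃_le
    _ ≤ ‖x - ContinuousMap.toLp 2 μ ℂ a‖ * ‖y‖ +
        ‖(ContinuousMap.toLp 2 μ ℂ a : HH μ)‖ * ‖y - ContinuousMap.toLp 2 μ ℂ b‖ + ε / 3 := by
      gcongr
      · exact hbound _ _ _
      · exact hbound _ _ _
    _ < ε := by linarith

/-! ### The exponentials -/

/-- The characters, as continuous functions. -/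
def ch (l : ℝ) : C(KK, ℂ) := ⟨fun x => ee 0 l x, (continuous_ee 0 l).comp continuous_subtype_val⟩

lemma ch_apply (l : ℝ) (x : KK) : ch l x = ee 0 l x := rfl

lemma ch_add (l m : ℝ) : ch (l + m) = ch l * ch m := by
  ext x
  rw [ContinuousMap.mul_apply, ch_apply, ch_apply, ch_apply, ee_add]

lemma ch_zero : ch 0 = 1 := by
  ext x
  rw [ch_apply]
  unfold ee ph
  simp

lemma ch_neg (l : ℝ) : star (ch l) = ch (-l) := by
  ext x
  rw [ContinuousMap.star_apply, ch_apply, ch_apply]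
  unfold ee ph
  change (starRingEnd ℂ) _ = _
  rw [← Complex.exp_conj]
  congr 1
  simp

lemma norm_ch (l : ℝ) (x : KK) : ‖ch l x‖ = 1 := norm_ee _ _ _

/-- The algebra generated by the characters. -/
def AA : StarSubalgebra ℂ C(KK, ℂ) where
  carrier := (Submodule.span ℂ (Set.range ch) : Set C(KK, ℂ))
  zero_mem' := Submodule.zero_mem _
  one_mem' := Submodule.subset_span ⟨0, ch_zero⟩
  add_mem' := fun h1 h2 => Submodule.add_mem _ h1 h2
  mul_mem' := by
    intro a b ha hb
    simp only [SetLike.mem_coe] at ha hb ⊢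
    induction ha, hb using Submodule.span_induction₂ with
    | mem_mem x y hx hy =>
      obtain ⟨l, rfl⟩ := hx
      obtain ⟨m, rfl⟩ := hy
      rw [← ch_add]
      exact Submodule.subset_span ⟨_, rfl⟩
    | zero_left y hy => rw [zero_mul]; exact Submodule.zero_mem _
    | zero_right x hx => rw [mul_zero]; exact Submodule.zero_mem _
    | add_left x y z hx hy hz h1 h2 => rw [add_mul]; exact Submodule.add_mem _ h1 h2
    | add_right x y z hx hy hz h1 h2 => rw [mul_add]; exact Submodule.add_mem _ h1 h2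
    | smul_left r x y hx hy h1 => rw [smul_mul_assoc]; exact Submodule.smul_mem _ _ h1
    | smul_right r x y hx hy h1 => rw [mul_smul_comm]; exact Submodule.smul_mem _ _ h1
  algebraMap_mem' := by
    intro r
    rw [Algebra.algebraMap_eq_smul_one]
    exact Submodule.smul_mem _ _ (Submodule.subset_span ⟨0, ch_zero⟩)
  star_mem' := by
    intro a ha
    simp only [SetLike.mem_coe] at ha ⊢
    induction ha using Submodule.span_induction with
    | mem x hx =>
      obtain ⟨l, rfl⟩ := hx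
      rw [ch_neg]
      exact Submodule.subset_span ⟨_, rfl⟩
    | zero => rw [star_zero]; exact Submodule.zero_mem _
    | add x y _ _ h1 h2 => rw [star_add]; exact Submodule.add_mem _ h1 h2
    | smul r x _ h1 => rw [star_smul]; exact Submodule.smul_mem _ _ h1

lemma AA_dense : AA.topologicalClosure = ⊤ := by
  apply ContinuousMap.starSubalgebra_topologicalClosure_eq_top_of_separatesPoints
  intro x y hxy
  have hne : (x : ℝ) ≠ y := fun h => hxy (Subtype.ext h)
  -- a small frequency separates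
  refine ⟨ch (1 / 8), ⟨ch (1 / 8), Submodule.subset_span ⟨_, rfl⟩, rfl⟩, ?_⟩
  intro h
  simp only [ch_apply] at h
  unfold ee ph at h
  rw [Complex.exp_eq_exp_iff_exists_int] at h
  obtain ⟨n, hn⟩ := h
  have hn' : ((1 / 8 * (x : ℝ) : ℝ) : ℂ) * Complex.I =
      ((1 / 8 * (y : ℝ) + n * (2 * Real.pi) : ℝ) : ℂ) * Complex.I := by
    have : ((2 * 0 * Real.arctan (x : ℝ) + 1 / 8 * (x : ℝ) : ℝ) : ℂ) * Complex.I =
        ((1 / 8 * (x : ℝ) : ℝ) : ℂ) * Complex.I := by simp
    rw [← this, hn]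
    push_cast
    ring
  have hr : 1 / 8 * (x : ℝ) = 1 / 8 * (y : ℝ) + n * (2 * Real.pi) := by
    have := mul_right_cancel₀ Complex.I_ne_zero hn'
    exact_mod_cast this
  have hx1 := x.2.1
  have hx2 := x.2.2
  have hy1 := y.2.1
  have hy2 := y.2.2
  have hb := bb_lt
  have hpi := Real.pi_gt_three
  have hn0 : n = 0 := by
    by_contra hcon
    rcases lt_or_gt_of_ne hcon with h | h
    · have h1 : (n : ℝ) ≤ -1 := by exact_mod_cast (by omega : n ≤ -1)
      nlinarith
    · have h1 : (1 : ℝ) ≤ n := by exact_mod_cast (by omega : 1 ≤ n)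
      nlinarith
  rw [hn0] at hr
  apply hne
  push_cast at hr
  linarith

/-- Test on the characters. -/
lemma test_characters {ι : Type} (F : Filter ι) (g : ι → C(KK, ℂ))
    (hg : ∀ i x, ‖g i x‖ ≤ 1)
    (h : ∀ l : ℝ, Tendsto (fun i => ∫ x, g i x * ch l x ∂μ) F (𝓝 0)) (a : C(KK, ℂ)) :
    Tendsto (fun i => ∫ x, g i x * a x ∂μ) F (𝓝 0) := by
  have hint : ∀ i (b : C(KK, ℂ)), Integrable (fun x => g i x * b x) μ := by
    intro i b
    exact ((g i * b).continuous).integrable_of_hasCompactSupport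
      (HasCompactSupport.of_compactSpace _)
  -- the span
  have h1 : ∀ b : C(KK, ℂ), b ∈ Submodule.span ℂ (Set.range ch) →
      Tendsto (fun i => ∫ x, g i x * b x ∂μ) F (𝓝 0) := by
    intro b hb
    induction hb using Submodule.span_induction with
    | mem x hx =>
      obtain ⟨l, rfl⟩ := hx
      exact h l
    | zero => simpa using (tendsto_const_nhds : Tendsto (fun _ : ι => (0 : ℂ)) F (𝓝 0))
    | add x y _ _ h1 h2 =>
      have := h1.add h2
      rw [add_zero] at this
      refine this.congr fun i => ?_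
      rw [← integral_add (hint i x) (hint i y)]
      congr 1
      ext z
      rw [ContinuousMap.add_apply, mul_add]
    | smul r x _ h1 =>
      have := h1.const_mul r
      rw [mul_zero] at this
      refine this.congr fun i => ?_
      rw [← integral_const_mul]
      congr 1
      ext z
      rw [ContinuousMap.smul_apply, smul_eq_mul]
      ring
  rw [Metric.tendsto_nhds]
  intro ε hε
  have hmem : a ∈ AA.topologicalClosure := by rw [AA_dense]; trivial
  have hmem' : a ∈ closure (AA : Set C(KK, ℂ)) := hmem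
  obtain ⟨b, hb, hab⟩ := Metric.mem_closure_iff.mp hmem'
    (ε / (2 * (μ.real univ + 1))) (by positivity)
  have h2 := (Metric.tendsto_nhds.mp (h1 b hb)) (ε / 2) (by positivity)
  filter_upwards [h2] with i hi
  rw [dist_zero_right] at hi ⊢
  have e : ∫ x, g i x * a x ∂μ = ∫ x, g i x * (a - b) x ∂μ + ∫ x, g i x * b x ∂μ := by
    rw [← integral_add (hint i (a - b)) (hint i b)]
    congr 1
    ext z
    rw [ContinuousMap.sub_apply]
    ring
  have h3 : ‖∫ x, g i x * (a - b) x ∂μ‖ ≤ ε / (2 * (μ.real univ + 1)) * μ.real univ := by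
    apply norm_integral_le_of_norm_le_const
    refine Filter.Eventually.of_forall fun x => ?_
    rw [norm_mul]
    have h4 : ‖(a - b) x‖ ≤ ε / (2 * (μ.real univ + 1)) := by
      refine ((a - b).norm_coe_le_norm x).trans ?_
      rw [← dist_eq_norm]
      exact hab.le
    calc _ ≤ 1 * (ε / (2 * (μ.real univ + 1))) :=
          mul_le_mul (hg i x) h4 (norm_nonneg _) zero_le_one
      _ = _ := one_mul _
  have h5 : ε / (2 * (μ.real univ + 1)) * μ.real univ ≤ ε / 2 := by
    have hnn : 0 ≤ μ.real univ := measureReal_nonneg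
    rw [div_mul_eq_mul_div, div_le_div_iff₀ (by positivity) (by norm_num)]
    nlinarith
  rw [e]
  calc _ ≤ _ := norm_add_le _ _
    _ < ε := by linarith

end

end Pool.Agent.Run7.h235.Riesz
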