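import Pool.Agent.H17Arc.Osc2

/-!
# A Riesz product seen through the Cayley map

Uniform estimates for the integrals of `exp (i (2 s arctan x + l x))` against the partial products
of the Riesz product `∏ (1 + cos (64 ^ (j + 1) x))` on the interval `[1, 1 + 2π]`.
-/

set_option autoImplicit false

open MeasureTheory Set Filter Topology

namespace Pool.Agent.Run7.h235.Riesz

open H17Arc

/-- Second-derivative test without a stationary point in the hypotheses. -/
lemma second {φ v w : ℝ → ℝ} (hφ : ∀ t, HasDerivAt φ (v t) t)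
    (hv : ∀ t, HasDerivAt v (w t) t) (hw : Continuous w) {a b c ρ : ℝ}
    (hab : a ≤ b) (hc : 0 < c) (hρ : 0 < ρ)
    (hwc : ∀ t ∈ Icc a b, c ≤ w t) :
    ‖W φ 0 a b‖ ≤ 6 / (c * ρ) + 2 * ρ := by
  have hφc : Continuous φ := continuous_iff_continuousAt.mpr fun t => (hφ t).continuousAt
  have hvc : Continuous v := continuous_iff_continuousAt.mpr fun t => (hv t).continuousAt
  have hcρ : 0 < c * ρ := by positivity
  have h6 : (0 : ℝ) ≤ 3 / (c * ρ) := by positivity
  have h36 : (6 : ℝ) / (c * ρ) = 3 / (c * ρ) + 3 / (c * ρ) := by ring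
  by_cases hz : ∃ t0 ∈ Icc a b, v t0 = 0
  · obtain ⟨t0, ht0, hv0⟩ := hz
    exact norm_W_le_second hφ hv hw hab ⟨le_refl _, hab⟩ ⟨hab, le_refl _⟩ ht0 hv0 (le_refl _) hc hρ
      hwc
  · push Not at hz
    -- short interval
    by_cases hshort : b ≤ a + ρ
    · have := norm_W_le_len (φ := φ) (le_refl (0 : ℝ)) hab
      linarith
    · push Not at hshort
      have hsplit : ∀ m, W φ 0 a b = W φ 0 a m + W φ 0 m b := by
        intro m
        have := W_split hφc 0 a m b
        simpa using this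
      by_cases hva : 0 < v a
      · rw [hsplit (a + ρ)]
        have h1 : ‖W φ 0 a (a + ρ)‖ ≤ ρ := by
          have := norm_W_le_len (φ := φ) (le_refl (0 : ℝ)) (show a ≤ a + ρ by linarith)
          linarith
        have h2 : ‖W φ 0 (a + ρ) b‖ ≤ 3 / (c * ρ) := by
          apply norm_W_le_first hφ hv hw hshort.le (le_refl _) hcρ
          · intro t ht
            exact hc.le.trans (hwc t ⟨by linarith [ht.1], ht.2⟩)
          · left
            intro t ht
            have := v_lower hv hwc (s := a) (t := t) ⟨le_refl _, hab⟩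
              ⟨by linarith [ht.1], ht.2⟩ (by linarith [ht.1])
            have h3 : c * ρ ≤ c * (t - a) := mul_le_mul_of_nonneg_left (by linarith [ht.1]) hc.le
            linarith
        calc _ ≤ _ := norm_add_le _ _
          _ ≤ _ := by linarith
      · by_cases hvb : v b < 0
        · rw [hsplit (b - ρ)]
          have h1 : ‖W φ 0 (b - ρ) b‖ ≤ ρ := by
            have := norm_W_le_len (φ := φ) (le_refl (0 : ℝ)) (show b - ρ ≤ b by linarith)
            linarith
          have h2 : ‖W φ 0 a (b - ρ)‖ ≤ 3 / (c * ρ) := by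
            apply norm_W_le_first hφ hv hw (by linarith) (le_refl _) hcρ
            · intro t ht
              exact hc.le.trans (hwc t ⟨ht.1, by linarith [ht.2]⟩)
            · right
              intro t ht
              have := v_lower hv hwc (s := t) (t := b) ⟨ht.1, by linarith [ht.2]⟩
                ⟨hab, le_refl _⟩ (by linarith [ht.2])
              have h3 : c * ρ ≤ c * (b - t) := mul_le_mul_of_nonneg_left (by linarith [ht.2]) hc.le
              linarith
          calc _ ≤ _ := norm_add_le _ _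
            _ ≤ _ := by linarith
        · exfalso
          push Not at hva hvb
          obtain ⟨t0, ht0, h0⟩ := intermediate_value_Icc hab hvc.continuousOn ⟨hva, hvb⟩
          exact hz t0 ht0 h0

/-- The right end of the interval. -/
noncomputable def bb : ℝ := 1 + 2 * Real.pi

lemma bb_gt : 1 < bb := by
  unfold bb
  have := Real.pi_pos
  linarith

lemma bb_lt : bb < 8 := by
  unfold bb
  have := Real.pi_lt_d2
  linarith

/-- The phase. -/
noncomputable def ph (s l x : ℝ) : ℝ := 2 * s * Real.arctan x + l * x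

lemma continuous_ph (s l : ℝ) : Continuous (ph s l) := by
  unfold ph
  exact (continuous_const.mul Real.continuous_arctan).add (continuous_const.mul continuous_id)

/-- The exponential. -/
noncomputable def ee (s l x : ℝ) : ℂ := Complex.exp ((ph s l x : ℂ) * Complex.I)

lemma continuous_ee (s l : ℝ) : Continuous (ee s l) := by
  unfold ee
  exact Complex.continuous_exp.comp
    ((Complex.continuous_ofReal.comp (continuous_ph s l)).mul continuous_const)

lemma norm_ee (s l x : ℝ) : ‖ee s l x‖ = 1 := by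
  unfold ee
  exact Complex.norm_exp_ofReal_mul_I _

lemma ee_add (s l m x : ℝ) : ee s (l + m) x = ee s l x * ee 0 m x := by
  unfold ee ph
  rw [← Complex.exp_add]
  congr 1
  push_cast
  ring

lemma hasDerivAt_phase (s l t : ℝ) :
    HasDerivAt (fun x => -ph s l x) (-(2 * s / (1 + t ^ 2) + l)) t := by
  unfold ph
  have h1 : HasDerivAt (fun x : ℝ => 2 * s * Real.arctan x) (2 * s * (1 / (1 + t ^ 2))) t :=
    (Real.hasDerivAt_arctan t).const_mul (2 * s)
  have h2 : HasDerivAt (fun x : ℝ => l * x) (l * 1) t := (hasDerivAt_id t).const_mul l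
  refine (h1.add h2).neg.congr_deriv ?_
  ring

lemma hasDerivAt_phase' (s l t : ℝ) :
    HasDerivAt (fun x : ℝ => -(2 * s / (1 + x ^ 2) + l)) (4 * s * t / (1 + t ^ 2) ^ 2) t := by
  have hne : (1 + t ^ 2 : ℝ) ≠ 0 := by positivity
  have h1 : HasDerivAt (fun x : ℝ => 1 + x ^ 2) (2 * t) t := by
    have := (hasDerivAt_pow 2 t).const_add 1
    simpa using this
  have h2 := (h1.inv hne).const_mul (2 * s)
  have h3 := (h2.add_const l).neg
  have h4 : (fun x : ℝ => -(2 * s / (1 + x ^ 2) + l)) = fun x : ℝ => -(2 * s * (1 + x ^ 2)⁻¹ + l) := by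
    ext x
    rw [div_eq_mul_inv]
  rw [h4]
  refine h3.congr_deriv ?_
  field_simp
  ring

lemma continuous_w (s : ℝ) : Continuous (fun t : ℝ => 4 * s * t / (1 + t ^ 2) ^ 2) := by
  apply Continuous.div (by fun_prop) (by fun_prop)
  intro t
  positivity

lemma W_eq (s l : ℝ) : W (fun x => -ph s l x) 0 1 bb = ∫ x in (1 : ℝ)..bb, ee s l x := by
  unfold W H17Arc.ker ee
  congr 1
  ext t
  simp

/-- The bound from the second derivative. -/
lemma base_second {s : ℝ} (hs : 0 < s) (l : ℝ) :
    ‖∫ x in (1 : ℝ)..bb, ee s l x‖ ≤ 12002 / √s := by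
  rw [← W_eq]
  have hsq : 0 < √s := Real.sqrt_pos.mpr hs
  have h := second (φ := fun x => -ph s l x) (hasDerivAt_phase s l) (hasDerivAt_phase' s l)
    (continuous_w s) (a := 1) (b := bb) (c := s / 2000) (ρ := 1 / √s) bb_gt.le (by positivity)
    (by positivity) (by
      intro t ht
      have h1 : 1 ≤ t := ht.1
      have h8 : t < 8 := ht.2.trans_lt bb_lt
      rw [div_le_div_iff₀ (by norm_num) (by positivity)]
      have h2 : (1 + t ^ 2) ^ 2 ≤ 65 ^ 2 := by
        apply pow_le_pow_left₀ (by positivity)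
        nlinarith
      nlinarith)
  refine h.trans (le_of_eq ?_)
  have hss : s = √s * √s := (Real.mul_self_sqrt hs.le).symm
  have : s / 2000 * (1 / √s) = √s / 2000 := by
    rw [div_mul_div_comm, mul_one]
    rw [div_eq_div_iff (by positivity) (by norm_num)]
    nth_rewrite 1 [hss]
    ring
  rw [this]
  field_simp
  ring

/-- The bound from the first derivative. -/
lemma base_first {s l m : ℝ} (hs : 0 ≤ s) (hm : 0 < m) (hl : s + m ≤ |l|) :
    ‖∫ x in (1 : ℝ)..bb, ee s l x‖ ≤ 3 / m := by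
  rw [← W_eq]
  have hq : ∀ t : ℝ, 1 ≤ t → 0 ≤ 2 * s / (1 + t ^ 2) ∧ 2 * s / (1 + t ^ 2) ≤ s := by
    intro t ht
    refine ⟨by positivity, ?_⟩
    rw [div_le_iff₀ (by positivity)]
    nlinarith [mul_nonneg hs (by nlinarith : (0 : ℝ) ≤ t ^ 2 - 1)]
  apply norm_W_le_first (hasDerivAt_phase s l) (hasDerivAt_phase' s l)
    (continuous_w s) bb_gt.le (le_refl _) hm
  · intro t ht
    have h1 : 1 ≤ t := ht.1
    positivity
  · rcases le_total 0 l with h | h
    · right
      intro t ht
      rw [abs_of_nonneg h] at hl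
      have := hq t ht.1
      linarith [this.1]
    · left
      intro t ht
      rw [abs_of_nonpos h] at hl
      have := hq t ht.1
      linarith [this.2]

/-- The frequencies. -/
noncomputable def NN (j : ℕ) : ℝ := 64 ^ (j + 1)

/-- The partial products. -/
noncomputable def PP (k : ℕ) (x : ℝ) : ℝ := ∏ j ∈ Finset.range k, (1 + Real.cos (NN j * x))

lemma PP_succ (k : ℕ) (x : ℝ) : PP (k + 1) x = PP k x * (1 + Real.cos (NN k * x)) := by
  unfold PP
  rw [Finset.prod_range_succ]

lemma PP_zero (x : ℝ) : PP 0 x = 1 := by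
  unfold PP
  simp

lemma PP_nonneg (k : ℕ) (x : ℝ) : 0 ≤ PP k x := by
  unfold PP
  apply Finset.prod_nonneg
  intro j _
  linarith [Real.neg_one_le_cos (NN j * x)]

lemma continuous_PP (k : ℕ) : Continuous (PP k) := by
  unfold PP
  fun_prop

/-- The oscillatory integrals. -/
noncomputable def II (k : ℕ) (s l : ℝ) : ℂ := ∫ x in (1 : ℝ)..bb, (PP k x : ℂ) * ee s l x

lemma II_zero (s l : ℝ) : II 0 s l = ∫ x in (1 : ℝ)..bb, ee s l x := by
  unfold II
  simp [PP_zero]

lemma integrable_aux (k : ℕ) (s l : ℝ) :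
    IntervalIntegrable (fun x => (PP k x : ℂ) * ee s l x) volume 1 bb :=
  ((Complex.continuous_ofReal.comp (continuous_PP k)).mul (continuous_ee s l)).intervalIntegrable
    _ _

lemma cos_eq (m x : ℝ) : ((Real.cos (m * x) : ℝ) : ℂ) = (ee 0 m x + ee 0 (-m) x) / 2 := by
  unfold ee ph
  rw [Complex.ofReal_cos, Complex.cos]
  congr 2
  · congr 1; push_cast; ring
  · congr 1; push_cast; ring

lemma II_succ (k : ℕ) (s l : ℝ) :
    II (k + 1) s l = II k s l + (1 / 2) * II k s (l + NN k) + (1 / 2) * II k s (l - NN k) := by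
  unfold II
  rw [← intervalIntegral.integral_const_mul, ← intervalIntegral.integral_const_mul,
    ← intervalIntegral.integral_add, ← intervalIntegral.integral_add]
  · congr 1
    ext x
    rw [PP_succ, sub_eq_add_neg, ee_add, ee_add]
    push_cast
    have h := cos_eq (NN k) x
    rw [Complex.ofReal_cos] at h
    push_cast at h
    rw [h]
    ring
  · exact (integrable_aux k s l).add ((integrable_aux k s _).const_mul _)
  · exact (integrable_aux k s _).const_mul _
  · exact integrable_aux k s l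
  · exact (integrable_aux k s _).const_mul _

lemma norm_step (k : ℕ) (s l B : ℝ) (h1 : ‖II k s (l + NN k)‖ ≤ B) (h2 : ‖II k s (l - NN k)‖ ≤ B) :
    ‖II (k + 1) s l - II k s l‖ ≤ B := by
  have h : II (k + 1) s l - II k s l =
      (1 / 2) * II k s (l + NN k) + (1 / 2) * II k s (l - NN k) := by
    rw [II_succ]; ring
  rw [h]
  refine (norm_add_le _ _).trans ?_
  rw [norm_mul, norm_mul]
  have : ‖(1 / 2 : ℂ)‖ = 1 / 2 := by norm_num
  rw [this]
  linarith

/-- Bound A. -/
lemma boundA {s : ℝ} (hs : 0 < s) (k : ℕ) : ∀ l, ‖II k s l‖ ≤ 2 ^ k * (12002 / √s) := by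
  induction k with
  | zero =>
    intro l
    rw [II_zero]
    simpa using base_second hs l
  | succ k ih =>
    intro l
    have h := norm_step k s l _ (ih _) (ih _)
    have h2 : ‖II (k + 1) s l‖ ≤ ‖II k s l‖ + ‖II (k + 1) s l - II k s l‖ := by
      have := norm_add_le (II k s l) (II (k + 1) s l - II k s l)
      rwa [add_sub_cancel] at this
    have := ih l
    rw [pow_succ]
    linarith

/-- The sum of the frequencies. -/
noncomputable def DD (k : ℕ) : ℝ := ∑ j ∈ Finset.range k, NN j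

lemma DD_succ (k : ℕ) : DD (k + 1) = DD k + NN k := by
  unfold DD
  rw [Finset.sum_range_succ]

lemma NN_pos (k : ℕ) : 0 < NN k := by
  unfold NN
  positivity

lemma DD_le (k : ℕ) : DD k ≤ 2 * 64 ^ k := by
  induction k with
  | zero => simp [DD]
  | succ k ih =>
    rw [DD_succ]
    unfold NN
    have : (0 : ℝ) < 64 ^ k := by positivity
    rw [pow_succ]
    linarith

/-- Bound B. -/
lemma boundB {s m : ℝ} (hs : 0 ≤ s) (hm : 0 < m) (k : ℕ) :
    ∀ l, s + DD k + m ≤ |l| → ‖II k s l‖ ≤ 2 ^ k * (3 / m) := by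
  induction k with
  | zero =>
    intro l hl
    rw [II_zero]
    have := base_first hs hm (l := l) (by simpa [DD] using hl)
    simpa using this
  | succ k ih =>
    intro l hl
    rw [DD_succ] at hl
    have hN := NN_pos k
    have h0 := ih l (by linarith)
    have h1 := ih (l + NN k) (by
      have := abs_sub_abs_le_abs_sub l (-NN k)
      rw [abs_neg, abs_of_pos hN, sub_neg_eq_add] at this
      linarith)
    have h2 := ih (l - NN k) (by
      have := abs_sub_abs_le_abs_sub l (NN k)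
      rw [abs_of_pos hN] at this
      linarith)
    have h := norm_step k s l _ h1 h2
    have h3 : ‖II (k + 1) s l‖ ≤ ‖II k s l‖ + ‖II (k + 1) s l - II k s l‖ := by
      have := norm_add_le (II k s l) (II (k + 1) s l - II k s l)
      rwa [add_sub_cancel] at this
    rw [pow_succ]
    linarith

/-- Bound C. -/
lemma boundC {s l : ℝ} (hs : 0 ≤ s) (j : ℕ) (hs' : s ≤ 16 ^ (j + 1)) (hl : |l| ≤ 64 ^ j) :
    ‖II (j + 1) s l - II j s l‖ ≤ 3 / 32 ^ j := by
  have h64 : (0 : ℝ) < 64 ^ j := by positivity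
  have h16 : (16 : ℝ) ^ j ≤ 64 ^ j := pow_le_pow_left₀ (by norm_num) (by norm_num) j
  have hD := DD_le j
  have hN : NN j = 64 * 64 ^ j := by unfold NN; rw [pow_succ]; ring
  have hs2 : s ≤ 16 * 64 ^ j := by
    rw [pow_succ] at hs'
    linarith
  have key : 2 ^ j * (3 / (64 : ℝ) ^ j) = 3 / 32 ^ j := by
    have : (64 : ℝ) ^ j = 2 ^ j * 32 ^ j := by rw [← mul_pow]; norm_num
    rw [this]
    field_simp
  rw [← key]
  apply norm_step
  · apply boundB hs h64
    have := abs_sub_abs_le_abs_sub (NN j) (-l)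
    rw [abs_neg, sub_neg_eq_add, abs_of_pos (NN_pos j), add_comm (NN j)] at this
    linarith
  · apply boundB hs h64
    have := abs_sub_abs_le_abs_sub (NN j) l
    rw [abs_of_pos (NN_pos j), abs_sub_comm] at this
    linarith

lemma tail {s l : ℝ} (hs : 0 ≤ s) (k : ℕ) (hs' : s ≤ 16 ^ (k + 1)) (hl : |l| ≤ 64 ^ k) (i : ℕ) :
    ‖II (k + i) s l - II k s l‖ ≤ 4 / 32 ^ k - 4 / 32 ^ (k + i) := by
  induction i with
  | zero => simp
  | succ i ih =>
    have h1 := boundC hs (k + i) (hs'.trans (by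
      apply pow_le_pow_right₀ (by norm_num); omega)) (hl.trans (by
      apply pow_le_pow_right₀ (by norm_num); omega))
    have h2 : ‖II (k + (i + 1)) s l - II k s l‖ ≤
        ‖II (k + i + 1) s l - II (k + i) s l‖ + ‖II (k + i) s l - II k s l‖ := by
      have := norm_add_le (II (k + i + 1) s l - II (k + i) s l) (II (k + i) s l - II k s l)
      rwa [sub_add_sub_cancel] at this
    have h3 : (4 : ℝ) / 32 ^ (k + (i + 1)) = (1 / 8) / 32 ^ (k + i) := by
      rw [← add_assoc, pow_succ]
      field_simp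
      norm_num
    have h4 : (3 : ℝ) / 32 ^ (k + i) + (1 / 8) / 32 ^ (k + i) ≤ 4 / 32 ^ (k + i) := by
      rw [← add_div]
      gcongr
      norm_num
    rw [h3]
    linarith

/-- The uniform bound. -/
lemma uniform {s l : ℝ} (k : ℕ) (hs0 : 16 ^ k ≤ s) (hs' : s ≤ 16 ^ (k + 1)) (hl : |l| ≤ 64 ^ k)
    (K : ℕ) (hK : k ≤ K) : ‖II K s l‖ ≤ 12006 / 2 ^ k := by
  have hpos : (0 : ℝ) < 16 ^ k := by positivity
  have hs : 0 < s := lt_of_lt_of_le hpos hs0
  obtain ⟨i, rfl⟩ := Nat.exists_eq_add_of_le hK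
  have h1 := tail hs.le k hs' hl i
  have h2 := boundA hs k l
  have h3 : ‖II (k + i) s l‖ ≤ ‖II (k + i) s l - II k s l‖ + ‖II k s l‖ := by
    have := norm_add_le (II (k + i) s l - II k s l) (II k s l)
    rwa [sub_add_cancel] at this
  have h4 : (4 : ℝ) ^ k ≤ √s := by
    rw [show (4 : ℝ) ^ k = √(16 ^ k) by
      rw [show (16 : ℝ) ^ k = (4 ^ k) ^ 2 by rw [← pow_mul, mul_comm, pow_mul]; norm_num]
      rw [Real.sqrt_sq (by positivity)]]
    exact Real.sqrt_le_sqrt hs0
  have h5 : 2 ^ k * (12002 / √s) ≤ 12002 / 2 ^ k := by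
    have : 12002 / √s ≤ 12002 / 4 ^ k := by gcongr
    calc 2 ^ k * (12002 / √s) ≤ 2 ^ k * (12002 / 4 ^ k) := by gcongr
      _ = 12002 / 2 ^ k := by
        rw [show (4 : ℝ) ^ k = 2 ^ k * 2 ^ k by rw [← mul_pow]; norm_num]
        field_simp
  have h6 : (4 : ℝ) / 32 ^ k ≤ 4 / 2 ^ k := by
    gcongr
    norm_num
  have h7 : (0 : ℝ) < 4 / 32 ^ (k + i) := by positivity
  have h8 : (12006 : ℝ) / 2 ^ k = 12002 / 2 ^ k + 4 / 2 ^ k := by
    rw [← add_div]; norm_num
  rw [h8]
  linarith

/-- The integrals are eventually small, uniformly in the stage. -/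
theorem eventually_small (l : ℝ) {ε : ℝ} (hε : 0 < ε) :
    ∃ S : ℝ, ∀ s, S ≤ s → ∃ K₀ : ℕ, ∀ K, K₀ ≤ K → ‖II K s l‖ ≤ ε := by
  obtain ⟨k0, hk0⟩ : ∃ k0 : ℕ, 12006 / (2 : ℝ) ^ k0 ≤ ε ∧ |l| ≤ 64 ^ k0 := by
    obtain ⟨n, hn⟩ := pow_unbounded_of_one_lt (12006 / ε + |l|) (one_lt_two)
    have h1 : 0 ≤ |l| := abs_nonneg l
    have h2 : 0 < 12006 / ε := by positivity
    refine ⟨n, ?_, ?_⟩
    · rw [div_le_iff₀ (by positivity)]
      have : 12006 / ε < 2 ^ n := by linarith
      rw [div_lt_iff₀ hε] at this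
      linarith
    · have : (2 : ℝ) ^ n ≤ 64 ^ n := pow_le_pow_left₀ (by norm_num) (by norm_num) n
      linarith
  refine ⟨16 ^ k0, fun s hs => ?_⟩
  -- find the stage
  have hs1 : 1 ≤ s := le_trans (one_le_pow₀ (by norm_num)) hs
  obtain ⟨k, hk1, hk2⟩ := exists_nat_pow_near hs1 (by norm_num : (1 : ℝ) < 16)
  have hkk : k0 ≤ k := by
    by_contra hcon
    push Not at hcon
    have : (16 : ℝ) ^ (k + 1) ≤ 16 ^ k0 := pow_le_pow_right₀ (by norm_num) hcon
    linarith
  refine ⟨k, fun K hK => (uniform k hk1 hk2.le (hk0.2.trans ?_) K hK).trans (le_trans ?_ hk0.1)⟩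
  · exact pow_le_pow_right₀ (by norm_num) hkk
  · gcongr
    norm_num

/-! ### The moments of the partial products -/

lemma II_zero_int (m : ℤ) (hm : m ≠ 0) : II 0 0 m = 0 := by
  rw [II_zero]
  have hm' : (m : ℂ) ≠ 0 := by exact_mod_cast hm
  have hc : (m : ℂ) * Complex.I ≠ 0 := mul_ne_zero hm' Complex.I_ne_zero
  have : (fun x : ℝ => ee 0 m x) = fun x : ℝ => Complex.exp ((m : ℂ) * Complex.I * x) := by
    ext x
    unfold ee ph
    congr 1
    push_cast
    ring
  rw [this, integral_exp_mul_complex hc]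
  have h1 : Complex.exp ((m : ℂ) * Complex.I * ((bb : ℝ) : ℂ)) =
      Complex.exp ((m : ℂ) * Complex.I * ((1 : ℝ) : ℂ)) := by
    unfold bb
    have : (m : ℂ) * Complex.I * ((1 + 2 * Real.pi : ℝ) : ℂ) =
        (m : ℂ) * Complex.I * ((1 : ℝ) : ℂ) + m * (2 * Real.pi * Complex.I) := by
      push_cast
      ring
    rw [this, Complex.exp_add, Complex.exp_int_mul_two_pi_mul_I, mul_one]
  rw [h1, sub_self, zero_div]

lemma II_zero_zero : II 0 0 0 = 2 * Real.pi := by
  rw [II_zero]
  have : (fun x : ℝ => ee 0 0 x) = fun _ : ℝ => (1 : ℂ) := by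
    ext x
    unfold ee ph
    simp
  rw [this]
  rw [intervalIntegral.integral_const]
  unfold bb
  simp

/-- integer version of the sum of the frequencies -/
def DZ (k : ℕ) : ℤ := ∑ j ∈ Finset.range k, 64 ^ (j + 1)

lemma DZ_succ (k : ℕ) : DZ (k + 1) = DZ k + 64 ^ (k + 1) := by
  unfold DZ
  rw [Finset.sum_range_succ]

lemma DZ_le (k : ℕ) : DZ k ≤ 2 * 64 ^ k := by
  induction k with
  | zero => simp [DZ]
  | succ k ih =>
    rw [DZ_succ, pow_succ]
    have : (0 : ℤ) < 64 ^ k := by positivity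
    linarith

lemma NN_int (k : ℕ) : NN k = ((64 ^ (k + 1) : ℤ) : ℝ) := by
  unfold NN
  push_cast
  rfl

lemma II_succ_int (k : ℕ) (m : ℤ) :
    II (k + 1) 0 m = II k 0 m + (1 / 2) * II k 0 ((m + 64 ^ (k + 1) : ℤ) : ℝ) +
      (1 / 2) * II k 0 ((m - 64 ^ (k + 1) : ℤ) : ℝ) := by
  rw [II_succ, NN_int]
  push_cast
  rfl

lemma II_vanish (k : ℕ) : ∀ m : ℤ, DZ k < |m| → II k 0 m = 0 := by
  induction k with
  | zero =>
    intro m hm
    apply II_zero_int
    intro h
    simp [DZ, h] at hm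
  | succ k ih =>
    intro m hm
    rw [DZ_succ] at hm
    have hN : (0 : ℤ) < 64 ^ (k + 1) := by positivity
    have h0 := ih m (by linarith)
    have h1 := ih (m + 64 ^ (k + 1)) (by
      have := abs_sub_abs_le_abs_sub m (-64 ^ (k + 1))
      rw [abs_neg, abs_of_pos hN, sub_neg_eq_add] at this
      linarith)
    have h2 := ih (m - 64 ^ (k + 1)) (by
      have := abs_sub_abs_le_abs_sub m (64 ^ (k + 1))
      rw [abs_of_pos hN] at this
      linarith)
    rw [II_succ_int, h0, h1, h2]
    ring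

lemma DZ_lt (k : ℕ) : DZ k < 64 ^ (k + 1) := by
  have := DZ_le k
  have h : (0 : ℤ) < 64 ^ k := by positivity
  rw [pow_succ]
  linarith

lemma II_mass (k : ℕ) : II k 0 0 = 2 * Real.pi := by
  induction k with
  | zero => exact II_zero_zero
  | succ k ih =>
    have h := II_succ_int k 0
    have hN : (0 : ℤ) < 64 ^ (k + 1) := by positivity
    rw [II_vanish k (0 + 64 ^ (k + 1)) (by rw [zero_add, abs_of_pos hN]; exact DZ_lt k),
      II_vanish k (0 - 64 ^ (k + 1)) (by rw [zero_sub, abs_neg, abs_of_pos hN]; exact DZ_lt k)] at h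
    simp only [Int.cast_zero, mul_zero, add_zero] at h
    rw [h, ih]

lemma II_freq (j : ℕ) : ∀ i : ℕ, II (j + 1 + i) 0 ((64 ^ (j + 1) : ℤ) : ℝ) = Real.pi := by
  intro i
  induction i with
  | zero =>
    rw [add_zero, II_succ_int]
    have hN : (0 : ℤ) < 64 ^ (j + 1) := by positivity
    rw [II_vanish j (64 ^ (j + 1)) (by rw [abs_of_pos hN]; exact DZ_lt j),
      II_vanish j (64 ^ (j + 1) + 64 ^ (j + 1)) (by
        rw [abs_of_pos (by positivity)]; linarith [DZ_lt j]), sub_self]
    rw [Int.cast_zero, II_mass]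
    ring
  | succ i ih =>
    rw [← add_assoc, II_succ_int, ih]
    have h64 : (0 : ℤ) < 64 ^ (j + 1 + i) := by positivity
    have hle : (64 : ℤ) ^ (j + 1) ≤ 64 ^ (j + 1 + i) := pow_le_pow_right₀ (by norm_num) (by omega)
    have hpos : (0 : ℤ) < 64 ^ (j + 1) := by positivity
    have hD := DZ_le (j + 1 + i)
    have hexp : (64 : ℤ) ^ (j + 1 + i + 1) = 64 ^ (j + 1 + i) * 64 := pow_succ _ _
    rw [II_vanish (j + 1 + i) (64 ^ (j + 1) + 64 ^ (j + 1 + i + 1)) (by
        rw [abs_of_pos (by positivity)]; linarith),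
      II_vanish (j + 1 + i) (64 ^ (j + 1) - 64 ^ (j + 1 + i + 1)) (by
        rw [abs_of_neg (by linarith)]; linarith)]
    ring

end Pool.Agent.Run7.h235.Riesz
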