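import Pool.Agent.Run7.h235.Riesz

/-!
# The limit of the partial Riesz products
-/

set_option autoImplicit false

open MeasureTheory Set Filter Topology

namespace Pool.Agent.Run7.h235.Riesz

/-- The compact interval. -/
abbrev KK : Type := Set.Icc (1 : ℝ) bb

/-- The density. -/
noncomputable def dens (k : ℕ) (x : KK) : NNReal := Real.toNNReal (PP k x / (2 * Real.pi))

lemma continuous_dens (k : ℕ) : Continuous (dens k) := by
  unfold dens
  exact continuous_real_toNNReal.comp
    (((continuous_PP k).comp continuous_subtype_val).div_const _)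

/-- Lebesgue measure on the interval. -/
noncomputable def leb : Measure KK := Measure.comap (Subtype.val) (volume : Measure ℝ)

/-- The partial products as measures. -/
noncomputable def mu (k : ℕ) : Measure KK := leb.withDensity (fun x => (dens k x : ENNReal))

lemma integral_leb (f : ℝ → ℂ) : ∫ x : KK, f x ∂leb = ∫ x in (1 : ℝ)..bb, f x := by
  unfold leb
  rw [integral_subtype_comap measurableSet_Icc f, intervalIntegral.integral_of_le bb_gt.le,
    integral_Icc_eq_integral_Ioc]

lemma integral_mu (k : ℕ) (f : ℝ → ℂ) :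
    ∫ x : KK, f x ∂(mu k) = (1 / (2 * Real.pi)) * ∫ x in (1 : ℝ)..bb, (PP k x : ℂ) * f x := by
  unfold mu
  rw [integral_withDensity_eq_integral_smul (continuous_dens k).measurable]
  have h : (fun x : KK => dens k x • f x) =
      fun x : KK => (fun y : ℝ => ((PP k y / (2 * Real.pi) : ℝ) : ℂ) * f y) x := by
    ext x
    have hnn : 0 ≤ PP k x / (2 * Real.pi) := div_nonneg (PP_nonneg k x) (by positivity)
    rw [NNReal.smul_def]
    unfold dens
    rw [Real.coe_toNNReal _ hnn]
    simp
  rw [h, integral_leb (fun y : ℝ => ((PP k y / (2 * Real.pi) : ℝ) : ℂ) * f y),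
    ← intervalIntegral.integral_const_mul]
  congr 1
  ext x
  push_cast
  ring

lemma integral_mu_ee (k : ℕ) (s l : ℝ) :
    ∫ x : KK, ee s l x ∂(mu k) = (1 / (2 * Real.pi)) * II k s l :=
  integral_mu k (ee s l)

lemma two_pi_ne : (2 * (Real.pi : ℂ)) ≠ 0 := by
  have : (Real.pi : ℂ) ≠ 0 := by exact_mod_cast Real.pi_ne_zero
  exact mul_ne_zero two_ne_zero this

instance : IsFiniteMeasure leb := by
  refine ⟨?_⟩
  unfold leb
  rw [comap_subtype_coe_apply measurableSet_Icc volume univ]
  simp only [image_univ, Subtype.range_coe_subtype]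
  calc volume {x | x ∈ Icc 1 bb} = volume (Icc 1 bb) := rfl
    _ < ⊤ := by rw [Real.volume_Icc]; exact ENNReal.ofReal_lt_top

lemma isProbability (k : ℕ) : IsProbabilityMeasure (mu k) := by
  have hc := continuous_dens k
  obtain ⟨C, hC⟩ : ∃ C : NNReal, ∀ x : KK, dens k x ≤ C := by
    obtain ⟨C, hC⟩ := (isCompact_range hc).bddAbove
    exact ⟨C, fun x => hC ⟨x, rfl⟩⟩
  have hfin : IsFiniteMeasure (mu k) := by
    refine ⟨?_⟩
    unfold mu
    rw [withDensity_apply _ MeasurableSet.univ, Measure.restrict_univ]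
    calc ∫⁻ x, (dens k x : ENNReal) ∂leb ≤ ∫⁻ _, (C : ENNReal) ∂leb := by
          apply lintegral_mono
          intro x
          exact ENNReal.coe_le_coe.mpr (hC x)
      _ = C * leb univ := lintegral_const _
      _ < ⊤ := ENNReal.mul_lt_top ENNReal.coe_lt_top (measure_lt_top _ _)
  refine ⟨?_⟩
  have h1 := integral_mu_ee k 0 0
  rw [II_mass] at h1
  have h2 : (fun x : KK => ee 0 0 x) = fun _ : KK => (1 : ℂ) := by
    ext x
    unfold ee ph
    simp
  rw [h2, integral_const, one_div, inv_mul_cancel₀ two_pi_ne] at h1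
  have h3 : (mu k).real univ = 1 := by
    have := h1
    simp only [Complex.real_smul, mul_one] at this
    exact_mod_cast this
  rw [← ENNReal.toReal_eq_one_iff]
  exact h3

/-- The partial products as probability measures. -/
noncomputable def pm (k : ℕ) : ProbabilityMeasure KK := ⟨mu k, isProbability k⟩

/-- The limit measure with its two properties. -/
theorem exists_measure : ∃ μ : ProbabilityMeasure KK,
    (∀ l : ℝ, Tendsto (fun n : ℕ => ∫ x : KK, ee n l x ∂(μ : Measure KK)) atTop (𝓝 0)) ∧
    (∀ j : ℕ, ∫ x : KK, ee 0 ((64 : ℝ) ^ (j + 1)) x ∂(μ : Measure KK) = 1 / 2) := by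
  obtain ⟨μ, -, hμ⟩ := (isCompact_univ (X := ProbabilityMeasure KK)).ultrafilter_le_nhds
    ((Ultrafilter.of atTop).map pm) (by simp)
  have hle : (Ultrafilter.of (atTop : Filter ℕ) : Filter ℕ) ≤ atTop := Ultrafilter.of_le _
  have ht : Tendsto pm (Ultrafilter.of (atTop : Filter ℕ) : Filter ℕ) (𝓝 μ) := hμ
  have hlim : ∀ s l : ℝ, Tendsto (fun k => (1 / (2 * Real.pi)) * II k s l)
      (Ultrafilter.of (atTop : Filter ℕ) : Filter ℕ) (𝓝 (∫ x : KK, ee s l x ∂(μ : Measure KK))) := by
    intro s l
    have h := (ProbabilityMeasure.tendsto_iff_forall_integral_rclike_tendsto ℂ).mp ht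
      (BoundedContinuousFunction.mkOfCompact
        ⟨fun x : KK => ee s l x, (continuous_ee s l).comp continuous_subtype_val⟩)
    refine h.congr fun k => ?_
    rw [← integral_mu_ee]
    rfl
  refine ⟨μ, ?_, ?_⟩
  · intro l
    rw [Metric.tendsto_atTop]
    intro ε hε
    obtain ⟨S, hS⟩ := eventually_small l (half_pos hε)
    obtain ⟨N, hN⟩ := exists_nat_ge S
    refine ⟨N, fun n hn => ?_⟩
    obtain ⟨K₀, hK⟩ := hS n (hN.trans (by exact_mod_cast hn))
    have h1 : ∀ᶠ k in (Ultrafilter.of (atTop : Filter ℕ) : Filter ℕ),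
        ‖(1 / (2 * Real.pi)) * II k n l‖ ≤ ε / 2 := by
      apply hle
      filter_upwards [eventually_ge_atTop K₀] with k hk
      have h2 := hK k hk
      have hpi : ‖(1 / (2 * Real.pi) : ℂ)‖ ≤ 1 := by
        rw [norm_div, norm_one, norm_mul, Complex.norm_real, Real.norm_eq_abs,
          abs_of_pos Real.pi_pos]
        rw [div_le_one (by simp [Real.pi_pos])]
        have := Real.pi_gt_three
        simp only [Complex.norm_ofNat]
        linarith
      rw [norm_mul]
      calc _ ≤ 1 * (ε / 2) := mul_le_mul hpi h2 (norm_nonneg _) zero_le_one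
        _ = ε / 2 := one_mul _
    have h2 := le_of_tendsto (hlim n l).norm h1
    rw [dist_zero_right]
    linarith
  · intro j
    refine tendsto_nhds_unique (hlim 0 ((64 : ℝ) ^ (j + 1))) ?_
    apply Tendsto.congr' _ tendsto_const_nhds
    apply hle
    filter_upwards [eventually_ge_atTop (j + 1)] with k hk
    obtain ⟨i, rfl⟩ := Nat.exists_eq_add_of_le hk
    have := II_freq j i
    push_cast at this
    rw [this]
    have h2 := two_pi_ne
    have h3 : (Real.pi : ℂ) ≠ 0 := by exact_mod_cast Real.pi_ne_zero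
    field_simp

end Pool.Agent.Run7.h235.Riesz
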